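import Mathlib

/-!
# Approximation by steps of length `1` and `√2`

If `‖h v - h (v + 1)‖ ≤ M` and `‖h v - h (v + √2)‖ ≤ M` for all `v ∈ [0, 8]`, then every `τ ∈ [0, 1]` is
approximated from below by some `t ∈ [0, τ]`, `τ - t ≤ δ ^ K`, `δ = √2 - 1`, with `‖h 0 - h t‖ ≤ 4 δ ^ (-K) M`.
-/

set_option autoImplicit false

namespace Pool.Agent.K7.H65.EP

/-- `δ = √2 - 1` -/
noncomputable def de : ℝ := √2 - 1

theorem sq2 : √2 ^ 2 = (2 : ℝ) := Real.sq_sqrt (by norm_num)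

theorem sqrt2_pos : (0 : ℝ) < √2 := Real.sqrt_pos.2 (by norm_num)

theorem sqrt2_gt : (1.41 : ℝ) < √2 := by
  rw [Real.lt_sqrt (by norm_num)]
  norm_num

theorem sqrt2_lt : √2 < (1.42 : ℝ) := by
  rw [Real.sqrt_lt' (by norm_num)]
  norm_num

theorem de_eq : de ^ 2 + 2 * de = 1 := by
  unfold de
  linear_combination sq2

theorem de_gt : (0.41 : ℝ) < de := by
  unfold de
  linarith [sqrt2_gt]

theorem de_lt : de < (0.42 : ℝ) := by
  unfold de
  linarith [sqrt2_lt]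

theorem de_pos : 0 < de := by linarith [de_gt]

theorem dpow_pos (k : ℕ) : 0 < de ^ k := pow_pos de_pos k

theorem dpow_le (k : ℕ) : de ^ k ≤ 1 := pow_le_one₀ de_pos.le (by linarith [de_lt])

theorem dpow_rec (k : ℕ) : de ^ (k + 2) + 2 * de ^ (k + 1) = de ^ k := by
  have := de_eq
  calc de ^ (k + 2) + 2 * de ^ (k + 1) = de ^ k * (de ^ 2 + 2 * de) := by ring
    _ = de ^ k := by rw [this, mul_one]

theorem dpow_succ_le (k : ℕ) : de ^ (k + 1) ≤ 0.42 * de ^ k := by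
  rw [pow_succ]
  nlinarith [dpow_pos k, de_lt]

theorem dpow_succ_ge (k : ℕ) : 0.41 * de ^ k ≤ de ^ (k + 1) := by
  rw [pow_succ]
  nlinarith [dpow_pos k, de_gt]

theorem inv_rec (k : ℕ) : de⁻¹ ^ k + 2 * de⁻¹ ^ (k + 1) = de⁻¹ ^ (k + 2) := by
  have h : de⁻¹ ^ 2 = 1 + 2 * de⁻¹ := by
    have h1 := de_eq
    have h2 := de_pos.ne'
    field_simp
    linarith
  calc de⁻¹ ^ k + 2 * de⁻¹ ^ (k + 1) = de⁻¹ ^ k * (1 + 2 * de⁻¹) := by ring
    _ = de⁻¹ ^ (k + 2) := by rw [← h]; ring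

variable {E : Type*} [SeminormedAddCommGroup E] {h : ℝ → E} {M : ℝ}

theorem steps (hM : 0 ≤ M) (h1 : ∀ v, 0 ≤ v → v ≤ 8 → ‖h v - h (v + 1)‖ ≤ M)
    (h2 : ∀ v, 0 ≤ v → v ≤ 8 → ‖h v - h (v + √2)‖ ≤ M) (k : ℕ) :
    ∀ v, 0 ≤ v → v ≤ 3 + 5 * de ^ k → ‖h v - h (v + de ^ k)‖ ≤ de⁻¹ ^ k * M := by
  induction k using Nat.twoStepInduction with
  | zero =>
    intro v hv hv'
    rw [pow_zero, pow_zero, one_mul]
    rw [pow_zero] at hv'
    exact h1 v hv (by linarith)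
  | one =>
    intro v hv hv'
    rw [pow_one, pow_one]
    rw [pow_one] at hv'
    have hd := de_lt
    have hd' := de_gt
    have e1 := h2 v hv (by linarith)
    have e2 := h1 (v + de) (by linarith [de_pos]) (by linarith)
    have e3 : v + de + 1 = v + √2 := by unfold de; ring
    rw [e3] at e2
    have e4 : h v - h (v + de) = (h v - h (v + √2)) - (h (v + de) - h (v + √2)) := by abel
    rw [e4]
    have e5 : (2 : ℝ) ≤ de⁻¹ := by
      rw [le_inv_comm₀ (by norm_num) de_pos]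
      linarith
    calc _ ≤ ‖h v - h (v + √2)‖ + ‖h (v + de) - h (v + √2)‖ := norm_sub_le _ _
      _ ≤ 2 * M := by linarith
      _ ≤ de⁻¹ * M := mul_le_mul_of_nonneg_right e5 hM
  | more k ih1 ih2 =>
    intro v hv hv'
    have p0 := dpow_pos k
    have p1 := dpow_pos (k + 1)
    have p2 := dpow_pos (k + 2)
    have q1 := dpow_succ_le k
    have q2 := dpow_succ_le (k + 1)
    have hrec := dpow_rec k
    have e1 := ih1 v hv (by nlinarith)
    have e2 := ih2 (v + de ^ (k + 2)) (by linarith) (by nlinarith)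
    have e3 := ih2 (v + de ^ (k + 2) + de ^ (k + 1)) (by linarith) (by nlinarith)
    have e4 : v + de ^ (k + 2) + de ^ (k + 1) + de ^ (k + 1) = v + de ^ k := by linarith
    rw [e4] at e3
    have e5 : h v - h (v + de ^ (k + 2)) = (h v - h (v + de ^ k)) -
        (h (v + de ^ (k + 2)) - h (v + de ^ (k + 2) + de ^ (k + 1))) -
        (h (v + de ^ (k + 2) + de ^ (k + 1)) - h (v + de ^ k)) := by abel
    rw [e5]
    calc _ ≤ ‖h v - h (v + de ^ k)‖ + ‖h (v + de ^ (k + 2)) - h (v + de ^ (k + 2) + de ^ (k + 1))‖ +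
          ‖h (v + de ^ (k + 2) + de ^ (k + 1)) - h (v + de ^ k)‖ :=
          (norm_sub_le _ _).trans (add_le_add_left (norm_sub_le _ _) _)
      _ ≤ de⁻¹ ^ k * M + de⁻¹ ^ (k + 1) * M + de⁻¹ ^ (k + 1) * M := by linarith
      _ = de⁻¹ ^ (k + 2) * M := by rw [← inv_rec]; ring

theorem approx (hM : 0 ≤ M) (h1 : ∀ v, 0 ≤ v → v ≤ 8 → ‖h v - h (v + 1)‖ ≤ M)
    (h2 : ∀ v, 0 ≤ v → v ≤ 8 → ‖h v - h (v + √2)‖ ≤ M) {τ : ℝ} (hτ : 0 ≤ τ) (hτ' : τ ≤ 1) (K : ℕ) :
    ∃ t, 0 ≤ t ∧ t ≤ τ ∧ τ - t ≤ de ^ K ∧ ‖h 0 - h t‖ ≤ 4 * de⁻¹ ^ K * M := by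
  induction K with
  | zero => exact ⟨0, le_rfl, hτ, by simpa using hτ', by simpa using hM⟩
  | succ K ih =>
    obtain ⟨t, ht0, htτ, htK, hb⟩ := ih
    have p1 := dpow_pos (K + 1)
    have q1 := dpow_succ_le (K + 1)
    have hrec := dpow_rec K
    have hi : 0 ≤ de⁻¹ ^ K * M := mul_nonneg (pow_nonneg (inv_nonneg.2 de_pos.le) _) hM
    have hi2 : 2 * (de⁻¹ ^ K * M) ≤ de⁻¹ ^ (K + 1) * M := by
      have e5 : (2 : ℝ) ≤ de⁻¹ := by
        rw [le_inv_comm₀ (by norm_num) de_pos]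
        linarith [de_lt]
      calc 2 * (de⁻¹ ^ K * M) ≤ de⁻¹ * (de⁻¹ ^ K * M) := mul_le_mul_of_nonneg_right e5 hi
        _ = _ := by rw [pow_succ]; ring
    have hst := steps hM h1 h2 (K + 1)
    by_cases c1 : τ - t ≤ de ^ (K + 1)
    · exact ⟨t, ht0, htτ, c1, by linarith⟩
    push Not at c1
    have s1 := hst t ht0 (by linarith)
    by_cases c2 : τ - t ≤ 2 * de ^ (K + 1)
    · refine ⟨t + de ^ (K + 1), by linarith, by linarith, by linarith, ?_⟩
      have e : h 0 - h (t + de ^ (K + 1)) = (h 0 - h t) + (h t - h (t + de ^ (K + 1))) := by abel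
      rw [e]
      have := norm_add_le (h 0 - h t) (h t - h (t + de ^ (K + 1)))
      linarith
    · push Not at c2
      have s2 := hst (t + de ^ (K + 1)) (by linarith) (by linarith)
      refine ⟨t + de ^ (K + 1) + de ^ (K + 1), by linarith, by linarith, by nlinarith, ?_⟩
      have e : h 0 - h (t + de ^ (K + 1) + de ^ (K + 1)) = (h 0 - h t) + (h t - h (t + de ^ (K + 1))) +
        (h (t + de ^ (K + 1)) - h (t + de ^ (K + 1) + de ^ (K + 1))) := by abel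
      rw [e]
      have n1 := norm_add_le ((h 0 - h t) + (h t - h (t + de ^ (K + 1))))
        (h (t + de ^ (K + 1)) - h (t + de ^ (K + 1) + de ^ (K + 1)))
      have n2 := norm_add_le (h 0 - h t) (h t - h (t + de ^ (K + 1)))
      linarith

end Pool.Agent.K7.H65.EP
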