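import Mathlib

/-!
# Integer valued cocycles on a rank three group of vertical translations

`o t s` (`t ∈ Γ ⊆ ℝ`, `s ∈ ℂ`) is a cocycle with values in `ℤ`, every `o t` is zero outside of a closed discrete
set, and `Γ` contains `1, √2, √3`.  Then `o t s = W s - W (s + t i)` with a function `W` that is zero outside of a
closed discrete set.
-/

set_option autoImplicit false

namespace Pool.Agent.K7.H65.EP

open Complex

theorem lin_indep {p q r : ℤ} (h : (p : ℝ) + q * √2 + r * √3 = 0) : q = 0 ∧ r = 0 := by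
  have h2 : √2 ^ 2 = (2 : ℝ) := Real.sq_sqrt (by norm_num)
  have h3 : √3 ^ 2 = (3 : ℝ) := Real.sq_sqrt (by norm_num)
  have h6 : √2 * √3 = √6 := by
    rw [← Real.sqrt_mul (by norm_num)]
    norm_num
  have i2 : Irrational √2 := irrational_sqrt_two
  have i3 : Irrational √3 := by
    have := Nat.Prime.irrational_sqrt (p := 3) (by norm_num)
    exact_mod_cast this
  have i6 : Irrational √6 := by
    rw [irrational_sqrt_ofNat_iff]
    rintro ⟨r, hr⟩
    have : r ≤ 2 ∨ 3 ≤ r := by omega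
    rcases this with h | h
    · interval_cases r <;> omega
    · nlinarith
  have hqr : q * r = 0 := by
    by_contra hne
    have h4 : (p : ℝ) ^ 2 = 2 * q ^ 2 + 3 * r ^ 2 + 2 * q * r * √6 := by
      have h5 : (p : ℝ) = -(q * √2 + r * √3) := by linarith
      rw [h5, ← h6]
      linear_combination (q : ℝ) ^ 2 * h2 + (r : ℝ) ^ 2 * h3
    have h5 : √6 = (((p : ℚ) ^ 2 - 2 * q ^ 2 - 3 * r ^ 2) / (2 * (q * r)) : ℚ) := by
      push_cast
      have h7 : (q : ℝ) * r ≠ 0 := by exact_mod_cast hne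
      rw [eq_div_iff (mul_ne_zero two_ne_zero h7)]
      linarith
    exact i6 ⟨_, h5.symm⟩
  rcases mul_eq_zero.1 hqr with hq | hr
  · refine ⟨hq, ?_⟩
    subst hq
    by_contra hr
    have h7 : (r : ℝ) ≠ 0 := by exact_mod_cast hr
    have h5 : √3 = ((-p / r : ℚ) : ℝ) := by
      push_cast
      rw [eq_div_iff h7]
      simp only [Int.cast_zero] at h
      linarith
    exact i3 ⟨_, h5.symm⟩
  · refine ⟨?_, hr⟩
    subst hr
    by_contra hq
    have h7 : (q : ℝ) ≠ 0 := by exact_mod_cast hq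
    have h5 : √2 = ((-p / q : ℚ) : ℝ) := by
      push_cast
      rw [eq_div_iff h7]
      simp only [Int.cast_zero] at h
      linarith
    exact i2 ⟨_, h5.symm⟩

/-- the real number of a lattice point -/
noncomputable def xx (g : ℤ × ℤ) : ℝ := g.1 * √2 + g.2 * √3

/-- its fractional part -/
noncomputable def th (g : ℤ × ℤ) : ℝ := Int.fract (xx g)

theorem xx_add (g k : ℤ × ℤ) : xx (g + k) = xx g + xx k := by
  unfold xx
  push_cast [Prod.fst_add, Prod.snd_add]
  ring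

theorem xx_neg (g : ℤ × ℤ) : xx (-g) = -xx g := by
  unfold xx
  push_cast [Prod.fst_neg, Prod.snd_neg]
  ring

theorem th_zero : th 0 = 0 := by
  unfold th xx
  simp

theorem th_inj : Function.Injective th := by
  intro g k h
  unfold th at h
  rw [Int.fract_eq_fract] at h
  obtain ⟨z, hz⟩ := h
  have h1 : ((-z : ℤ) : ℝ) + ((g.1 - k.1 : ℤ) : ℝ) * √2 + ((g.2 - k.2 : ℤ) : ℝ) * √3 = 0 := by
    unfold xx at hz
    push_cast
    linarith
  obtain ⟨h2, h3⟩ := lin_indep h1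
  exact Prod.ext (by omega) (by omega)

/-- a function on the lattice that changes only finitely often is constant outside of a finite set -/
theorem grid {e : ℤ × ℤ → ℤ} (h1 : {g : ℤ × ℤ | e (g + (1, 0)) ≠ e g}.Finite)
    (h2 : {g : ℤ × ℤ | e (g + (0, 1)) ≠ e g}.Finite) : ∃ W : ℤ, {g : ℤ × ℤ | e g ≠ W}.Finite := by
  have hb : ∀ S : Set (ℤ × ℤ), S.Finite → ∃ N : ℤ, ∀ g ∈ S, |g.1| ≤ N ∧ |g.2| ≤ N := by
    intro S hS
    obtain ⟨N, hN⟩ := (hS.image fun g => max |g.1| |g.2|).bddAbove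
    refine ⟨N, fun g hg => ?_⟩
    have := hN (Set.mem_image_of_mem _ hg)
    exact ⟨(le_max_left _ _).trans this, (le_max_right _ _).trans this⟩
  obtain ⟨N1, hN1⟩ := hb _ h1
  obtain ⟨N2, hN2⟩ := hb _ h2
  have hrow : ∀ r : ℤ, N1 < |r| → ∀ q : ℤ, e (q, r) = e (0, r) := by
    intro r hr q
    have h3 : ∀ q : ℤ, e (q + 1, r) = e (q, r) := by
      intro q
      by_contra hcon
      have := (hN1 (q, r) (by simpa using hcon)).2
      simp only at this
      omega
    induction q using Int.induction_on with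
    | zero => rfl
    | succ i ih => rw [h3, ih]
    | pred i ih =>
      have := h3 (-(i : ℤ) - 1)
      rw [sub_add_cancel] at this
      rw [← this, ih]
  have hcol : ∀ q : ℤ, N2 < |q| → ∀ r : ℤ, e (q, r) = e (q, 0) := by
    intro q hq r
    have h3 : ∀ r : ℤ, e (q, r + 1) = e (q, r) := by
      intro r
      by_contra hcon
      have := (hN2 (q, r) (by simpa using hcon)).1
      simp only at this
      omega
    induction r using Int.induction_on with
    | zero => rfl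
    | succ i ih => rw [h3, ih]
    | pred i ih =>
      have := h3 (-(i : ℤ) - 1)
      rw [sub_add_cancel] at this
      rw [← this, ih]
  set N : ℤ := max (max N1 N2) 0 with hN
  have hN1' : N1 ≤ N := (le_max_left _ _).trans (le_max_left _ _)
  have hN2' : N2 ≤ N := (le_max_right _ _).trans (le_max_left _ _)
  have hN0 : 0 ≤ N := le_max_right _ _
  have hNabs : |N + 1| = N + 1 := abs_of_nonneg (by omega)
  refine ⟨e (N + 1, N + 1), Set.Finite.subset ((Set.finite_Icc (-N) N).prod (Set.finite_Icc (-N) N)) ?_⟩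
  rintro ⟨q, r⟩ hg
  by_contra hcon
  apply hg
  rw [Set.mem_prod, Set.mem_Icc, Set.mem_Icc, ← abs_le, ← abs_le, not_and_or, not_le, not_le] at hcon
  simp only at hcon
  rcases hcon with h | h
  · rw [hcol q (by omega) r, ← hcol q (by omega) (N + 1), hrow (N + 1) (by omega) q,
      ← hrow (N + 1) (by omega) (N + 1)]
  · rw [hrow r (by omega) q, ← hrow r (by omega) (N + 1), hcol (N + 1) (by omega) r,
      ← hcol (N + 1) (by omega) (N + 1)]

theorem const_of_steps {e : ℤ × ℤ → ℤ} (h1 : ∀ g, e (g + (1, 0)) = e g) (h2 : ∀ g, e (g + (0, 1)) = e g)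
    (g : ℤ × ℤ) : e g = e 0 := by
  have h3 : ∀ (r q : ℤ), e (q, r) = e (0, r) := by
    intro r q
    induction q using Int.induction_on with
    | zero => rfl
    | succ i ih =>
      have := h1 (i, r)
      simp only [Prod.mk_add_mk, add_zero] at this
      rw [this, ih]
    | pred i ih =>
      have := h1 (-(i : ℤ) - 1, r)
      simp only [Prod.mk_add_mk, add_zero, sub_add_cancel] at this
      rw [← this, ih]
  have h4 : ∀ r : ℤ, e (0, r) = e (0, 0) := by
    intro r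
    induction r using Int.induction_on with
    | zero => rfl
    | succ i ih =>
      have := h2 (0, i)
      simp only [Prod.mk_add_mk, add_zero] at this
      rw [this, ih]
    | pred i ih =>
      have := h2 (0, -(i : ℤ) - 1)
      simp only [Prod.mk_add_mk, add_zero, sub_add_cancel] at this
      rw [← this, ih]
  obtain ⟨q, r⟩ := g
  rw [h3, h4]
  rfl

variable {Γ : AddSubgroup ℝ} {o : ℝ → ℂ → ℤ}

/-- the hypotheses -/
structure Cocycle (Γ : AddSubgroup ℝ) (o : ℝ → ℂ → ℤ) : Prop where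
  one : (1 : ℝ) ∈ Γ
  two : √2 ∈ Γ
  three : √3 ∈ Γ
  add : ∀ t ∈ Γ, ∀ u ∈ Γ, ∀ s : ℂ, o (t + u) s = o t s + o u (s + t * I)
  fin : ∀ t ∈ Γ, ∀ R : ℝ, {s : ℂ | ‖s‖ ≤ R ∧ o t s ≠ 0}.Finite

namespace Cocycle

theorem int (h : Cocycle Γ o) (k : ℤ) : (k : ℝ) ∈ Γ := by
  have := Γ.zsmul_mem h.one k
  simpa using this

theorem xxm (h : Cocycle Γ o) (g : ℤ × ℤ) : xx g ∈ Γ := by
  unfold xx
  refine Γ.add_mem ?_ ?_
  · have := Γ.zsmul_mem h.two g.1
    simpa using this
  · have := Γ.zsmul_mem h.three g.2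
    simpa using this

theorem thm (h : Cocycle Γ o) (g : ℤ × ℤ) : th g ∈ Γ := by
  unfold th
  rw [← Int.self_sub_floor]
  exact Γ.sub_mem (h.xxm g) (h.int _)

theorem zero (h : Cocycle Γ o) (s : ℂ) : o 0 s = 0 := by
  have := h.add 0 Γ.zero_mem 0 Γ.zero_mem s
  simp at this
  exact this

/-- for almost all lattice points `o t (s + θ i)` is zero -/
theorem fin_th (h : Cocycle Γ o) {t : ℝ} (ht : t ∈ Γ) (s : ℂ) : {g : ℤ × ℤ | o t (s + th g * I) ≠ 0}.Finite := by
  have h1 := h.fin t ht (‖s‖ + 1)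
  refine Set.Finite.subset (h1.preimage (f := fun g : ℤ × ℤ => s + th g * I) ?_) ?_
  · intro g _ k _ hgk
    apply th_inj
    have h2 : (th g : ℂ) * I = th k * I := add_left_cancel hgk
    exact_mod_cast mul_right_cancel₀ I_ne_zero h2
  · intro g hg
    refine ⟨?_, hg⟩
    calc ‖s + th g * I‖ ≤ ‖s‖ + ‖(th g : ℂ) * I‖ := norm_add_le _ _
      _ ≤ ‖s‖ + 1 := by
        rw [norm_mul, norm_I, mul_one, Complex.norm_real, Real.norm_eq_abs, abs_of_nonneg (Int.fract_nonneg _)]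
        have := (Int.fract_lt_one (xx g)).le
        simp only [th]
        linarith

theorem floor_cases (g k : ℤ × ℤ) : ⌊xx (g + k)⌋ - ⌊xx g⌋ = ⌊xx k⌋ ∨ ⌊xx (g + k)⌋ - ⌊xx g⌋ = ⌊xx k⌋ + 1 := by
  rw [xx_add]
  have h1 := Int.le_floor_add (xx g) (xx k)
  have h2 := Int.le_floor_add_floor (xx g) (xx k)
  omega

theorem th_add (g k : ℤ × ℤ) : th (g + k) = th g + (xx k - ((⌊xx (g + k)⌋ - ⌊xx g⌋ : ℤ) : ℝ)) := by
  unfold th
  rw [← Int.self_sub_floor, ← Int.self_sub_floor]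
  rw [show xx (g + k) - ((⌊xx (g + k)⌋ : ℤ) : ℝ) = xx g + xx k - ((⌊xx (g + k)⌋ : ℤ) : ℝ) by rw [← xx_add]]
  push_cast
  ring

theorem step (h : Cocycle Γ o) (k : ℤ × ℤ) (s : ℂ) : {g : ℤ × ℤ | o (th (g + k)) s ≠ o (th g) s}.Finite := by
  have hm : ∀ z : ℤ, xx k - z ∈ Γ := fun z => Γ.sub_mem (h.xxm k) (h.int z)
  refine Set.Finite.subset ((h.fin_th (hm ⌊xx k⌋) s).union (h.fin_th (hm (⌊xx k⌋ + 1)) s)) ?_
  intro g hg
  rw [Set.mem_ofPred_eq, th_add, h.add _ (h.thm g) _ (hm _)] at hg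
  have hg' : o (xx k - ((⌊xx (g + k)⌋ - ⌊xx g⌋ : ℤ) : ℝ)) (s + th g * I) ≠ 0 := fun h0 => hg (by rw [h0, add_zero])
  rcases floor_cases g k with h1 | h1
  · left
    rw [h1] at hg'
    exact hg'
  · right
    rw [h1] at hg'
    exact hg'

theorem exW (h : Cocycle Γ o) (s : ℂ) : ∃ W : ℤ, {g : ℤ × ℤ | o (th g) s ≠ W}.Finite :=
  grid (h.step (1, 0) s) (h.step (0, 1) s)

/-- the primitive -/
noncomputable def W (h : Cocycle Γ o) (s : ℂ) : ℤ := (h.exW s).choose

theorem W_spec (h : Cocycle Γ o) (s : ℂ) : {g : ℤ × ℤ | o (th g) s ≠ h.W s}.Finite := (h.exW s).choose_spec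

/-- a property that holds outside of a finite set holds somewhere -/
theorem exists_good {P : ℤ × ℤ → Prop} (h : {g | ¬ P g}.Finite) : ∃ g, P g := by
  by_contra hcon
  push Not at hcon
  have h1 : {g | ¬ P g} = Set.univ := Set.eq_univ_of_forall hcon
  rw [h1] at h
  exact Set.infinite_univ h

theorem fin_shift {P : ℤ × ℤ → Prop} (h : {g | ¬ P g}.Finite) (k : ℤ × ℤ) : {g | ¬ P (g + k)}.Finite :=
  h.preimage (f := fun g => g + k) (fun _ _ _ _ hab => add_right_cancel hab)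

theorem W_sub (h : Cocycle Γ o) (p : ℤ) (k : ℤ × ℤ) (s : ℂ) :
    h.W s - h.W (s + ((p + xx k : ℝ) : ℂ) * I) = o (p + xx k) s := by
  have hpk : (p : ℝ) + xx k ∈ Γ := Γ.add_mem (h.int p) (h.xxm k)
  have f1 := h.W_spec (s + ((p + xx k : ℝ) : ℂ) * I)
  have f2 := fin_shift (P := fun g => o (th g) s = h.W s) (h.W_spec s) k
  have f3 := fin_shift (P := fun g => o ((p + ⌊xx k⌋ : ℤ) : ℝ) (s + th g * I) = 0) (h.fin_th (h.int _) s) k
  have f4 := fin_shift (P := fun g => o ((p + (⌊xx k⌋ + 1) : ℤ) : ℝ) (s + th g * I) = 0)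
    (h.fin_th (h.int _) s) k
  obtain ⟨g, hg⟩ := exists_good (P := fun g => o (th g) (s + ((p + xx k : ℝ) : ℂ) * I) =
      h.W (s + ((p + xx k : ℝ) : ℂ) * I) ∧ o (th (g + k)) s = h.W s ∧
      o ((p + ⌊xx k⌋ : ℤ) : ℝ) (s + th (g + k) * I) = 0 ∧
      o ((p + (⌊xx k⌋ + 1) : ℤ) : ℝ) (s + th (g + k) * I) = 0) (by
    refine Set.Finite.subset (((f1.union f2).union f3).union f4) ?_
    intro g hg
    simp only [Set.mem_ofPred_eq, not_and_or] at hg
    rcases hg with hg | hg | hg | hg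
    · exact Or.inl (Or.inl (Or.inl hg))
    · exact Or.inl (Or.inl (Or.inr hg))
    · exact Or.inl (Or.inr hg)
    · exact Or.inr hg)
  obtain ⟨h1, h2, h3, h4⟩ := hg
  have h5 := h.add _ hpk _ (h.thm g) s
  have h6 : (p : ℝ) + xx k + th g = th (g + k) + ((p + (⌊xx (g + k)⌋ - ⌊xx g⌋) : ℤ) : ℝ) := by
    rw [th_add]
    push_cast
    ring
  rw [h6, h.add _ (h.thm _) _ (h.int _), h1, h2] at h5
  have h7 : o ((p + (⌊xx (g + k)⌋ - ⌊xx g⌋) : ℤ) : ℝ) (s + th (g + k) * I) = 0 := by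
    rcases floor_cases g k with h8 | h8
    · rw [h8]; exact h3
    · rw [h8]; exact h4
  rw [h7] at h5
  linarith

theorem W_sub_one (h : Cocycle Γ o) (s : ℂ) : h.W s - h.W (s + ((1 : ℝ) : ℂ) * I) = o 1 s := by
  have := h.W_sub 1 (0, 0) s
  simpa [xx] using this

theorem W_sub_two (h : Cocycle Γ o) (s : ℂ) : h.W s - h.W (s + ((√2 : ℝ) : ℂ) * I) = o √2 s := by
  have := h.W_sub 0 (1, 0) s
  simpa [xx] using this

theorem W_eq_zero (h : Cocycle Γ o) {s : ℂ} (hs : ∀ t ∈ Γ, o t s = 0) : h.W s = 0 := by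
  obtain ⟨g, hg⟩ := exists_good (P := fun g => o (th g) s = h.W s) (h.W_spec s)
  rw [← hg, hs _ (h.thm g)]

/-- **The primitive is zero outside of a closed discrete set.** -/
theorem W_fin (h : Cocycle Γ o) (R : ℝ) : {s : ℂ | ‖s‖ ≤ R ∧ h.W s ≠ 0}.Finite := by
  -- for a fixed point `z`, almost all `z - θ i` have `W = 0`
  have key : ∀ z : ℂ, {g : ℤ × ℤ | h.W (z - th g * I) ≠ 0}.Finite := by
    intro z
    have f1 : {g : ℤ × ℤ | ¬ o (th (-g)) z = h.W z}.Finite :=
      (h.W_spec z).preimage (f := fun g => -g) (fun _ _ _ _ hab => neg_injective hab)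
    have f2 : ∀ k : ℤ, {g : ℤ × ℤ | ¬ o (k : ℝ) (z + th (-g) * I) = 0}.Finite := fun k =>
      (h.fin_th (h.int k) z).preimage (f := fun g => -g) (fun _ _ _ _ hab => neg_injective hab)
    refine Set.Finite.subset ((f1.union (f2 0)).union (f2 (-1))) ?_
    intro g hg
    by_contra hcon
    simp only [Set.mem_union, Set.mem_ofPred_eq, not_or, not_not] at hcon
    obtain ⟨⟨h1, h2⟩, h3⟩ := hcon
    apply hg
    have h4 : -th g = (⌊xx g⌋ : ℝ) + xx (-g) := by
      unfold th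
      rw [← Int.self_sub_floor, xx_neg]
      ring
    have h5 := h.W_sub ⌊xx g⌋ (-g) z
    rw [← h4] at h5
    have h6 : -th g = th (-g) + ((⌊xx g⌋ + ⌊-xx g⌋ : ℤ) : ℝ) := by
      unfold th
      rw [← Int.self_sub_floor, ← Int.self_sub_floor, xx_neg]
      push_cast
      ring
    have h7 : o (-th g) z = h.W z := by
      rw [h6, h.add _ (h.thm _) _ (h.int _), h1]
      have h8 : ⌊xx g⌋ + ⌊-xx g⌋ = 0 ∨ ⌊xx g⌋ + ⌊-xx g⌋ = -1 := by
        have h9 := Int.le_floor_add (xx g) (-xx g)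
        have h10 := Int.le_floor_add_floor (xx g) (-xx g)
        rw [add_neg_cancel, Int.floor_zero] at h9 h10
        omega
      rcases h8 with h8 | h8
      · rw [h8]
        simpa using h2
      · rw [h8]
        simpa using h3
    rw [h7] at h5
    have h8 : z + ((-th g : ℝ) : ℂ) * I = z - th g * I := by push_cast; ring
    rw [h8] at h5
    linarith
  -- the finitely many points where `W` can change
  set E : Set (ℤ × ℤ) := {(1, 0), (0, 1)} with hE
  set Z : Set ℂ := ⋃ k ∈ E, ({z : ℂ | ‖z‖ ≤ R + 1 ∧ o (xx k - (⌊xx k⌋ : ℤ)) z ≠ 0} ∪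
    {z : ℂ | ‖z‖ ≤ R + 1 ∧ o (xx k - ((⌊xx k⌋ + 1 : ℤ) : ℝ)) z ≠ 0}) with hZ
  have hZf : Z.Finite := by
    refine Set.Finite.biUnion (Set.toFinite E) fun k _ => ?_
    exact (h.fin _ (Γ.sub_mem (h.xxm k) (h.int _)) _).union (h.fin _ (Γ.sub_mem (h.xxm k) (h.int _)) _)
  refine Set.Finite.subset (hZf.biUnion fun z _ => (key z).image fun g => z - th g * I) ?_
  rintro s ⟨hsR, hs⟩
  -- there is a step where the value changes
  have hstep : ∃ k ∈ E, ∃ g : ℤ × ℤ, o (th (g + k)) s ≠ o (th g) s := by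
    by_contra hcon
    push Not at hcon
    obtain ⟨g, hg⟩ := exists_good (P := fun g => o (th g) s = h.W s) (h.W_spec s)
    apply hs
    rw [← hg, const_of_steps (e := fun g => o (th g) s) (hcon _ (by simp [hE])) (hcon _ (by simp [hE])) g]
    simp only [th_zero]
    exact h.zero s
  obtain ⟨k, hk, g, hg⟩ := hstep
  have hm : ∀ z : ℤ, xx k - z ∈ Γ := fun z => Γ.sub_mem (h.xxm k) (h.int z)
  rw [th_add, h.add _ (h.thm g) _ (hm _)] at hg
  have hg' : o (xx k - ((⌊xx (g + k)⌋ - ⌊xx g⌋ : ℤ) : ℝ)) (s + th g * I) ≠ 0 := fun h0 => hg (by rw [h0, add_zero])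
  have hn : ‖s + th g * I‖ ≤ R + 1 := by
    calc ‖s + th g * I‖ ≤ ‖s‖ + ‖(th g : ℂ) * I‖ := norm_add_le _ _
      _ ≤ R + 1 := by
        rw [norm_mul, norm_I, mul_one, Complex.norm_real, Real.norm_eq_abs, abs_of_nonneg (Int.fract_nonneg _)]
        have := (Int.fract_lt_one (xx g)).le
        simp only [th]
        linarith
  have hz : s + th g * I ∈ Z := by
    rw [hZ]
    refine Set.mem_biUnion hk ?_
    rcases floor_cases g k with h1 | h1
    · left
      rw [h1] at hg'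
      exact ⟨hn, hg'⟩
    · right
      rw [h1] at hg'
      exact ⟨hn, hg'⟩
  refine Set.mem_biUnion hz ⟨g, ?_, by ring⟩
  change h.W (s + th g * I - th g * I) ≠ 0
  rwa [add_sub_cancel_right]

end Cocycle

end Pool.Agent.K7.H65.EP
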