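import Pool.Agent.K7.H65.EP.Approx

/-!
# Continuation of a function whose differences for the vertical steps `1` and `√2` continue
-/

set_option autoImplicit false

namespace Pool.Agent.K7.H65.EP

open Complex Metric Filter Topology

theorem isOpen_hp' (c : ℝ) : IsOpen {s : ℂ | c < s.re} := isOpen_lt continuous_const Complex.continuous_re

/-- Cauchy's estimate for the Taylor coefficients -/
theorem cauchy {f : ℂ → ℂ} {z : ℂ} {r C : ℝ} (hr : 0 < r) {U : Set ℂ} (hf : DifferentiableOn ℂ f U)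
    (hU : closedBall z r ⊆ U) (hC : ∀ s ∈ closedBall z r, ‖f s‖ ≤ C) (n : ℕ) :
    ‖iteratedDeriv n f z / n.factorial‖ ≤ C / r ^ n := by
  have h1 : DiffContOnCl ℂ f (ball z r) := by
    apply DifferentiableOn.diffContOnCl
    rw [closure_ball _ hr.ne']
    exact hf.mono hU
  have h2 := norm_iteratedDeriv_le_of_forall_mem_sphere_norm_le n hr h1
    (fun s hs => hC s (sphere_subset_closedBall hs))
  rw [norm_div, Complex.norm_natCast, div_le_iff₀ (by positivity)]
  calc _ ≤ n.factorial * C / r ^ n := h2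
    _ = _ := by ring

/-- the Taylor coefficients on a vertical line -/
noncomputable def TT (h : ℂ → ℂ) (s0 : ℂ) (n : ℕ) (v : ℝ) : ℂ := iteratedDeriv n h (s0 + v * I) / n.factorial

theorem TT_deriv {h : ℂ → ℂ} {s0 : ℂ} {v : ℝ} (hA : AnalyticAt ℂ h (s0 + v * I)) (n : ℕ) :
    HasDerivAt (TT h s0 n) (I * ((n + 1 : ℕ) * TT h s0 (n + 1) v)) v := by
  have h1 : HasDerivAt (iteratedDeriv n h) (iteratedDeriv (n + 1) h (s0 + v * I)) (s0 + v * I) := by
    rw [iteratedDeriv_succ]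
    apply DifferentiableAt.hasDerivAt
    have h2 := hA.iterated_deriv n
    rw [← iteratedDeriv_eq_iterate] at h2
    exact h2.differentiableAt
  have h2 : HasDerivAt (fun v : ℝ => s0 + (v : ℂ) * I) I v := by
    have := ((hasDerivAt_id v).ofReal_comp.mul_const I).const_add s0
    simpa using this
  have h3 := (h1.comp v h2).div_const (n.factorial : ℂ)
  have h4 : iteratedDeriv (n + 1) h (s0 + v * I) * I / n.factorial = I * ((n + 1 : ℕ) * TT h s0 (n + 1) v) := by
    unfold TT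
    rw [Nat.factorial_succ]
    push_cast
    have h5 : ((n.factorial : ℕ) : ℂ) ≠ 0 := by exact_mod_cast n.factorial_ne_zero
    have h6 : ((n : ℂ) + 1) ≠ 0 := by exact_mod_cast n.succ_ne_zero
    field_simp
  rw [h4] at h3
  exact h3

theorem TT_step {h g : ℂ → ℂ} {s0 : ℂ} {c ρ R u M : ℝ} (hs0 : c < s0.re) (hρ : 0 < ρ) (hR : ρ + 8 < R)
    (hh : DifferentiableOn ℂ h {s | c < s.re}) (hg : DifferentiableOn ℂ g (ball s0 R))
    (hhg : ∀ s ∈ ball s0 R, c < s.re → h s - h (s + u * I) = g s)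
    (hM : ∀ s ∈ closedBall s0 (ρ + 8), ‖g s‖ ≤ M) (n : ℕ) {v : ℝ} (hv : 0 ≤ v) (hv' : v ≤ 8) :
    ‖TT h s0 n v - TT h s0 n (v + u)‖ ≤ M / ρ ^ n := by
  have hA : AnalyticOnNhd ℂ h {s | c < s.re} := hh.analyticOnNhd (isOpen_hp' c)
  have hre : ∀ w : ℝ, (s0 + w * I).re = s0.re := by intro w; simp
  have hd : dist (s0 + v * I) s0 = v := by
    rw [dist_eq_norm, add_sub_cancel_left, norm_mul, norm_I, mul_one, Complex.norm_real, Real.norm_eq_abs,
      abs_of_nonneg hv]
  have hz : s0 + v * I ∈ ball s0 R := by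
    rw [mem_ball, hd]
    linarith
  have h1 : (fun s => h s - h (s + u * I)) =ᶠ[𝓝 (s0 + v * I)] g := by
    filter_upwards [isOpen_ball.mem_nhds hz, (isOpen_hp' c).mem_nhds
      (show s0 + v * I ∈ {s : ℂ | c < s.re} by rw [Set.mem_ofPred_eq, hre]; exact hs0)] with s hs1 hs2
    exact hhg s hs1 hs2
  have h2 : TT h s0 n v - TT h s0 n (v + u) = iteratedDeriv n g (s0 + v * I) / n.factorial := by
    rw [← h1.iteratedDeriv_eq n, iteratedDeriv_fun_sub, iteratedDeriv_comp_add_const]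
    · unfold TT
      rw [sub_div]
      have h3 : s0 + ((v + u : ℝ) : ℂ) * I = s0 + v * I + u * I := by
        push_cast
        ring
      rw [h3]
    · exact (hA _ (by rw [Set.mem_ofPred_eq, hre]; exact hs0)).contDiffAt
    · have h3 : AnalyticAt ℂ h (s0 + v * I + u * I) := hA _ (by
        rw [Set.mem_ofPred_eq]
        simpa using hs0)
      exact (h3.comp_of_eq (analyticAt_id.add analyticAt_const) rfl).contDiffAt
  rw [h2]
  refine cauchy hρ hg ?_ ?_ n
  · intro s hs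
    rw [mem_ball]
    calc dist s s0 ≤ dist s (s0 + v * I) + dist (s0 + v * I) s0 := dist_triangle _ _ _
      _ < R := by rw [hd]; linarith [mem_closedBall.1 hs]
  · intro s hs
    apply hM
    rw [mem_closedBall]
    calc dist s s0 ≤ dist s (s0 + v * I) + dist (s0 + v * I) s0 := dist_triangle _ _ _
      _ ≤ ρ + 8 := by rw [hd]; linarith [mem_closedBall.1 hs]

/-- a function with Taylor coefficients of the size `R ^ (-n)` extends to the disc of radius `R / 2` -/
theorem extend_of_bound {h : ℂ → ℂ} {s0 : ℂ} (hA : AnalyticAt ℂ h s0) {R C : ℝ} (hR : 0 < R)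
    (hb : ∀ n : ℕ, ‖iteratedDeriv n h s0 / n.factorial‖ ≤ C * (n + 1) / (2 * R) ^ n) :
    ∃ H : ℂ → ℂ, DifferentiableOn ℂ H (ball s0 R) ∧ H =ᶠ[𝓝 s0] h := by
  set p := FormalMultilinearSeries.ofScalars ℂ (fun n ↦ iteratedDeriv n h s0 / (n.factorial : ℂ)) with hp
  have h1 : HasFPowerSeriesAt h p s0 := hA.hasFPowerSeriesAt
  set r : NNReal := ⟨R, hR.le⟩ with hr
  have hC : 0 ≤ C := by
    have := hb 0
    simp at this
    exact le_trans (norm_nonneg _) this
  have h2 : (r : ENNReal) ≤ p.radius := by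
    refine p.le_radius_of_bound C fun n => ?_
    rw [hp, FormalMultilinearSeries.ofScalars_norm]
    calc _ ≤ C * (n + 1) / (2 * R) ^ n * R ^ n := mul_le_mul_of_nonneg_right (hb n) (by positivity)
      _ = C * ((n + 1) / 2 ^ n) := by
        rw [mul_pow]
        have : R ^ n ≠ 0 := (pow_pos hR n).ne'
        field_simp
      _ ≤ C * 1 := by
        refine mul_le_mul_of_nonneg_left ?_ hC
        rw [div_le_one (by positivity)]
        have : n + 1 ≤ 2 ^ n := Nat.lt_two_pow_self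
        exact_mod_cast this
      _ = C := mul_one C
  have hr' : 0 < r := hR
  have hr0 : 0 < p.radius := lt_of_lt_of_le (by exact_mod_cast hr') h2
  have h3 := p.hasFPowerSeriesOnBall hr0
  have h4 : HasFPowerSeriesOnBall (fun s => p.sum (s - s0)) p s0 p.radius := by
    simpa using h3.comp_sub s0
  refine ⟨fun s => p.sum (s - s0), ?_, ?_⟩
  · refine h4.analyticOnNhd.differentiableOn.mono ?_
    intro s hs
    rw [mem_ball] at hs
    rw [mem_eball]
    refine lt_of_lt_of_le ?_ h2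
    rw [edist_dist, ENNReal.ofReal_lt_coe_iff (by positivity)]
    exact hs
  · filter_upwards [h1.eventually_hasSum_sub, h4.hasFPowerSeriesAt.eventually_hasSum_sub] with s e1 e2
    exact e2.unique e1

/-- **Continuation from the differences for the steps `1` and `√2`.** -/
theorem extend (c : ℝ) (s0 : ℂ) (hs0 : c < s0.re) {R : ℝ} (hR : 0 < R) :
    ∃ ρ : ℝ, 0 < ρ ∧ ∀ h g1 g2 : ℂ → ℂ, DifferentiableOn ℂ h {s | c < s.re} →
      DifferentiableOn ℂ g1 (ball s0 ρ) → DifferentiableOn ℂ g2 (ball s0 ρ) →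
      (∀ s ∈ ball s0 ρ, c < s.re → h s - h (s + ((1 : ℝ) : ℂ) * I) = g1 s) →
      (∀ s ∈ ball s0 ρ, c < s.re → h s - h (s + ((√2 : ℝ) : ℂ) * I) = g2 s) →
      ∃ H : ℂ → ℂ, DifferentiableOn ℂ H (ball s0 R) ∧ H =ᶠ[𝓝 s0] h := by
  set r : ℝ := (s0.re - c) / 2 with hr_def
  have hr : 0 < r := by rw [hr_def]; linarith
  clear_value r
  obtain ⟨k0, hk0⟩ : ∃ k : ℕ, de ^ k < r / (2 * R) :=
    exists_pow_lt_of_lt_one (by positivity) (by linarith [de_lt])
  set Δ : ℝ := de ^ k0 with hΔ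
  have hΔ0 : 0 < Δ := dpow_pos k0
  set ρ : ℝ := 2 * R / Δ with hρ_def
  have hρ : 0 < ρ := by positivity
  refine ⟨ρ + 9, by positivity, ?_⟩
  intro h g1 g2 hh hg1 hg2 e1 e2
  have hA : AnalyticOnNhd ℂ h {s | c < s.re} := hh.analyticOnNhd (isOpen_hp' c)
  have hsub : closedBall s0 (ρ + 8) ⊆ ball s0 (ρ + 9) := closedBall_subset_ball (by linarith)
  obtain ⟨M1, hM1⟩ := (isCompact_closedBall s0 (ρ + 8)).exists_bound_of_continuousOn (hg1.continuousOn.mono hsub)
  obtain ⟨M2, hM2⟩ := (isCompact_closedBall s0 (ρ + 8)).exists_bound_of_continuousOn (hg2.continuousOn.mono hsub)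
  set M : ℝ := max M1 M2 with hM_def
  have hM0 : 0 ≤ M := by
    have := hM1 s0 (mem_closedBall_self (by positivity))
    exact (norm_nonneg _).trans (this.trans (le_max_left _ _))
  set 𝒦 : Set ℂ := (fun p : ℝ × ℂ => s0 + p.1 * I + p.2) '' (Set.Icc 0 1 ×ˢ closedBall 0 r) with h𝒦
  have h𝒦c : IsCompact 𝒦 := (isCompact_Icc.prod (isCompact_closedBall 0 r)).image (by fun_prop)
  have h𝒦s : 𝒦 ⊆ {s : ℂ | c < s.re} := by
    rintro _ ⟨⟨v, z⟩, ⟨_, hz⟩, rfl⟩
    simp only at hz ⊢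
    rw [Set.mem_ofPred_eq]
    have h1 : (s0 + v * I + z).re = s0.re + z.re := by simp
    rw [h1]
    have h2 := Complex.abs_re_le_norm z
    rw [mem_closedBall_zero_iff] at hz
    have h3 := neg_abs_le z.re
    have h4 : c + 2 * r = s0.re := by rw [hr_def]; ring
    linarith
  obtain ⟨K, hK⟩ := h𝒦c.exists_bound_of_continuousOn (hh.continuousOn.mono h𝒦s)
  have hball : ∀ v : ℝ, 0 ≤ v → v ≤ 1 → closedBall (s0 + v * I) r ⊆ 𝒦 := by
    intro v hv hv' s hs
    refine ⟨(v, s - (s0 + v * I)), ⟨⟨hv, hv'⟩, ?_⟩, ?_⟩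
    · rw [mem_closedBall_zero_iff, ← dist_eq_norm]
      exact hs
    · simp only
      ring
  have hK0 : 0 ≤ K := by
    have := hK (s0 + (0 : ℝ) * I) (hball 0 le_rfl zero_le_one (mem_closedBall_self hr.le))
    exact (norm_nonneg _).trans this
  have hTK : ∀ (n : ℕ) (v : ℝ), 0 ≤ v → v ≤ 1 → ‖TT h s0 n v‖ ≤ K / r ^ n := fun n v hv hv' =>
    cauchy hr (hh.mono h𝒦s) (hball v hv hv') (fun s hs => hK s (hball v hv hv' hs)) n
  have hline : ∀ v : ℝ, AnalyticAt ℂ h (s0 + v * I) := fun v => hA _ (by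
    rw [Set.mem_ofPred_eq]
    simpa using hs0)
  have hst1 : ∀ (n : ℕ) (v : ℝ), 0 ≤ v → v ≤ 8 → ‖TT h s0 n v - TT h s0 n (v + 1)‖ ≤ M / ρ ^ n :=
    fun n v hv hv' => TT_step hs0 hρ (by linarith) hh hg1 e1
      (fun s hs => (hM1 s hs).trans (le_max_left _ _)) n hv hv'
  have hst2 : ∀ (n : ℕ) (v : ℝ), 0 ≤ v → v ≤ 8 → ‖TT h s0 n v - TT h s0 n (v + √2)‖ ≤ M / ρ ^ n :=
    fun n v hv hv' => TT_step hs0 hρ (by linarith) hh hg2 e2
      (fun s hs => (hM2 s hs).trans (le_max_right _ _)) n hv hv'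
  set C : ℝ := 4 * M + K / r with hC
  have hC0 : 0 ≤ C := by positivity
  have h2R : 0 < 2 * R := by linarith
  -- the oscillation of the coefficients on the segment
  have key1 : ∀ (n : ℕ) (τ : ℝ), 0 ≤ τ → τ ≤ 1 →
      ‖TT h s0 n 0 - TT h s0 n τ‖ ≤ C * (n + 1) / (2 * R) ^ n := by
    intro n τ hτ hτ'
    obtain ⟨t, ht0, htτ, htK, hb⟩ := approx (h := TT h s0 n) (M := M / ρ ^ n) (by positivity) (hst1 n) (hst2 n)
      hτ hτ' (k0 * n)
    have b1 : 4 * de⁻¹ ^ (k0 * n) * (M / ρ ^ n) = 4 * M / (2 * R) ^ n := by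
      have h1 : de⁻¹ ^ (k0 * n) = (Δ ^ n)⁻¹ := by rw [inv_pow, pow_mul]
      have h2 : ρ ^ n = (2 * R) ^ n / Δ ^ n := by rw [hρ_def, div_pow]
      rw [h1, h2]
      have h3 : Δ ^ n ≠ 0 := (pow_pos hΔ0 n).ne'
      have h4 : (2 * R) ^ n ≠ 0 := (pow_pos h2R n).ne'
      field_simp
    have b2 : ‖TT h s0 n t - TT h s0 n τ‖ ≤ (n + 1) * (K / r ^ (n + 1)) * (τ - t) := by
      have h1 := Convex.norm_image_sub_le_of_norm_hasDerivWithin_le (f := TT h s0 n)
        (f' := fun v => I * ((n + 1 : ℕ) * TT h s0 (n + 1) v)) (s := Set.Icc 0 1)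
        (C := (n + 1) * (K / r ^ (n + 1))) (x := τ) (y := t)
        (fun v _ => (TT_deriv (hline v) n).hasDerivWithinAt) ?_ (convex_Icc 0 1) ⟨hτ, hτ'⟩
        ⟨ht0, htτ.trans hτ'⟩
      · rw [Real.norm_eq_abs, abs_sub_comm, abs_of_nonneg (by linarith : 0 ≤ τ - t)] at h1
        exact h1
      · intro v hv
        rw [norm_mul, norm_I, one_mul, norm_mul, Complex.norm_natCast]
        push_cast
        exact mul_le_mul_of_nonneg_left (hTK (n + 1) v hv.1 hv.2) (by positivity)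
    have b3 : (n + 1) * (K / r ^ (n + 1)) * (τ - t) ≤ K / r * (n + 1) / (2 * R) ^ n := by
      have h1 : τ - t ≤ Δ ^ n := by rw [hΔ, ← pow_mul]; exact htK
      have h2 : Δ ^ n ≤ (r / (2 * R)) ^ n := pow_le_pow_left₀ hΔ0.le hk0.le n
      calc (n + 1) * (K / r ^ (n + 1)) * (τ - t) ≤ (n + 1) * (K / r ^ (n + 1)) * (r / (2 * R)) ^ n :=
            mul_le_mul_of_nonneg_left (h1.trans h2) (by positivity)
        _ = K / r * (n + 1) / (2 * R) ^ n := by
          rw [div_pow, pow_succ]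
          have h3 : r ^ n ≠ 0 := (pow_pos hr n).ne'
          have h4 : (2 * R) ^ n ≠ 0 := (pow_pos h2R n).ne'
          field_simp
    have b4 : 4 * M / (2 * R) ^ n ≤ 4 * M * (n + 1) / (2 * R) ^ n := by
      refine div_le_div_of_nonneg_right ?_ (by positivity)
      have : (0 : ℝ) ≤ n := Nat.cast_nonneg n
      nlinarith
    have b5 : TT h s0 n 0 - TT h s0 n τ = (TT h s0 n 0 - TT h s0 n t) + (TT h s0 n t - TT h s0 n τ) := by ring
    rw [b5]
    calc _ ≤ ‖TT h s0 n 0 - TT h s0 n t‖ + ‖TT h s0 n t - TT h s0 n τ‖ := norm_add_le _ _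
      _ ≤ 4 * M * (n + 1) / (2 * R) ^ n + K / r * (n + 1) / (2 * R) ^ n := by
        rw [b1] at hb
        linarith
      _ = C * (n + 1) / (2 * R) ^ n := by rw [hC]; ring
  -- the coefficients at the centre
  have key2 : ∀ m : ℕ, ‖TT h s0 (m + 1) 0‖ ≤ C * (1 + 2 * R) * (((m + 1 : ℕ) : ℝ) + 1) / (2 * R) ^ (m + 1) := by
    intro m
    have hd : ∀ v : ℝ, HasDerivAt (fun v : ℝ => TT h s0 m v - I * ((m + 1 : ℕ) * TT h s0 (m + 1) 0) * v)
        (I * ((m + 1 : ℕ) * TT h s0 (m + 1) v) - I * ((m + 1 : ℕ) * TT h s0 (m + 1) 0)) v := by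
      intro v
      have h1 := ((hasDerivAt_id v).ofReal_comp.const_mul (I * ((m + 1 : ℕ) * TT h s0 (m + 1) 0)))
      rw [Complex.ofReal_one, mul_one] at h1
      exact (TT_deriv (hline v) m).sub h1
    have h1 := Convex.norm_image_sub_le_of_norm_hasDerivWithin_le
      (C := (m + 1) * (C * (((m + 1 : ℕ) : ℝ) + 1) / (2 * R) ^ (m + 1))) (s := Set.Icc (0 : ℝ) 1)
      (fun v _ => (hd v).hasDerivWithinAt) ?_ (convex_Icc 0 1) (Set.left_mem_Icc.2 zero_le_one)
      (Set.right_mem_Icc.2 zero_le_one)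
    · have h2 := key1 m 1 zero_le_one le_rfl
      rw [norm_sub_rev] at h2
      simp only [Complex.ofReal_one, mul_one, Complex.ofReal_zero, mul_zero, sub_zero, norm_one] at h1
      have h3 : I * ((m + 1 : ℕ) * TT h s0 (m + 1) 0) = (TT h s0 m 1 - TT h s0 m 0) -
        (TT h s0 m 1 - I * ((m + 1 : ℕ) * TT h s0 (m + 1) 0) - TT h s0 m 0) := by ring
      have h4 : ‖I * ((m + 1 : ℕ) * TT h s0 (m + 1) 0)‖ = (m + 1) * ‖TT h s0 (m + 1) 0‖ := by
        rw [norm_mul, norm_I, one_mul, norm_mul, Complex.norm_natCast]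
        push_cast
        ring
      have h5 : (m + 1) * ‖TT h s0 (m + 1) 0‖ ≤ C * (m + 1) / (2 * R) ^ m +
          (m + 1) * (C * (((m + 1 : ℕ) : ℝ) + 1) / (2 * R) ^ (m + 1)) := by
        rw [← h4, h3]
        exact (norm_sub_le _ _).trans (add_le_add h2 h1)
      have hm : (0 : ℝ) < m + 1 := by positivity
      have h6 : ‖TT h s0 (m + 1) 0‖ ≤ C / (2 * R) ^ m + C * (((m + 1 : ℕ) : ℝ) + 1) / (2 * R) ^ (m + 1) := by
        refine le_of_mul_le_mul_left ?_ hm
        calc _ ≤ _ := h5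
          _ = _ := by ring
      have h7 : C / (2 * R) ^ m = C * (2 * R) / (2 * R) ^ (m + 1) := by
        rw [pow_succ]
        have h4 : (2 * R) ^ m ≠ 0 := (pow_pos h2R m).ne'
        field_simp
      rw [h7] at h6
      refine h6.trans ?_
      rw [← add_div]
      refine div_le_div_of_nonneg_right ?_ (by positivity)
      push_cast
      have : (0 : ℝ) ≤ m := Nat.cast_nonneg m
      have h8 : 0 ≤ C * (2 * R) * (m + 1) := by positivity
      nlinarith
    · intro v hv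
      have h2 := key1 (m + 1) v hv.1 hv.2
      rw [← mul_sub, ← mul_sub, norm_mul, norm_I, one_mul, norm_mul, Complex.norm_natCast, norm_sub_rev]
      push_cast at h2 ⊢
      exact mul_le_mul_of_nonneg_left h2 (by positivity)
  refine extend_of_bound (C := C * (1 + 2 * R) + ‖h s0‖) (by simpa using hline 0) hR ?_
  intro n
  rcases n with _ | m
  · simp only [iteratedDeriv_zero, Nat.factorial_zero, Nat.cast_one, div_one, Nat.cast_zero, zero_add, mul_one,
      pow_zero]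
    have : 0 ≤ C * (1 + 2 * R) := by positivity
    linarith
  · have h1 := key2 m
    have h2 : TT h s0 (m + 1) 0 = iteratedDeriv (m + 1) h s0 / ((m + 1).factorial : ℂ) := by
      unfold TT
      simp
    rw [h2] at h1
    refine h1.trans ?_
    refine div_le_div_of_nonneg_right ?_ (by positivity)
    refine mul_le_mul_of_nonneg_right ?_ (by positivity)
    linarith [norm_nonneg (h s0)]

end Pool.Agent.K7.H65.EP
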