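import Pool.Agent.K7.H58.EP.Glue
import Pool.Agent.K7.H65.EP.Div
import Pool.Agent.K7.H65.EP.Taylor

/-!
# Continuation from three unitary periods

If `exp (λ(s) - λ(s + i t))` continues meromorphically to the plane for `t = 1, √2, √3` then so does `exp λ(s)`.
-/

set_option autoImplicit false

namespace Pool.Agent.K7.H65.EP

open Complex Metric Filter Topology Set
open Pool.Agent.K7.H58.EP (isOpen_hp isConnected_hp hp_mono eq_near)

/-- `F` continues `exp (λ(s) - λ(s + i t))` -/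
def Ext (lam : ℂ → ℂ) (t : ℝ) (F : ℂ → ℂ) : Prop :=
  MeromorphicOn F univ ∧ ∃ d : ℝ, ∀ s : ℂ, d < s.re → F s = Complex.exp (lam s - lam (s + t * I))

theorem re_add_tI (s : ℂ) (t : ℝ) : (s + t * I).re = s.re := by simp

theorem mero_shift {F : ℂ → ℂ} (hF : MeromorphicOn F univ) (w : ℂ) : MeromorphicOn (fun s => F (s + w)) univ := by
  intro s _
  exact (hF (s + w) (mem_univ _)).comp_analyticAt (g := fun s => s + w) (analyticAt_id.add analyticAt_const)

theorem Ext.zero (lam : ℂ → ℂ) : Ext lam 0 (fun _ => 1) :=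
  ⟨MeromorphicOn.const 1, 0, fun s _ => by simp⟩

theorem Ext.add {lam : ℂ → ℂ} {t u : ℝ} {F G : ℂ → ℂ} (hF : Ext lam t F) (hG : Ext lam u G) :
    Ext lam (t + u) (fun s => F s * G (s + t * I)) := by
  obtain ⟨hF, d, hd⟩ := hF
  obtain ⟨hG, e, he⟩ := hG
  refine ⟨hF.mul (mero_shift hG (t * I)), max d e, fun s hs => ?_⟩
  change F s * G (s + t * I) = _
  rw [hd s (lt_of_le_of_lt (le_max_left _ _) hs), he (s + t * I) (by
    rw [re_add_tI]; exact lt_of_le_of_lt (le_max_right _ _) hs), ← Complex.exp_add]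
  congr 1
  have : s + ((t + u : ℝ) : ℂ) * I = s + t * I + u * I := by push_cast; ring
  rw [this]
  ring

theorem Ext.neg {lam : ℂ → ℂ} {t : ℝ} {F : ℂ → ℂ} (hF : Ext lam t F) :
    Ext lam (-t) (fun s => (F (s + (-t : ℝ) * I))⁻¹) := by
  obtain ⟨hF, d, hd⟩ := hF
  refine ⟨(mero_shift hF ((-t : ℝ) * I)).inv, d, fun s hs => ?_⟩
  change (F (s + (-t : ℝ) * I))⁻¹ = _
  rw [hd _ (by rw [re_add_tI]; exact hs), ← Complex.exp_neg]
  congr 1
  have : s + ((-t : ℝ) : ℂ) * I + t * I = s := by push_cast; ring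
  rw [this]
  ring

/-- the periods -/
def Per (lam : ℂ → ℂ) : AddSubgroup ℝ where
  carrier := {t | ∃ F, Ext lam t F}
  zero_mem' := ⟨_, Ext.zero lam⟩
  add_mem' := by
    rintro t u ⟨F, hF⟩ ⟨G, hG⟩
    exact ⟨_, hF.add hG⟩
  neg_mem' := by
    rintro t ⟨F, hF⟩
    exact ⟨_, hF.neg⟩

open Classical in
/-- the chosen continuations -/
noncomputable def FF (lam : ℂ → ℂ) (t : ℝ) : ℂ → ℂ := if h : ∃ F, Ext lam t F then h.choose else fun _ => 1

theorem FF_spec {lam : ℂ → ℂ} {t : ℝ} (ht : t ∈ Per lam) : Ext lam t (FF lam t) := by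
  have h : ∃ F, Ext lam t F := ht
  unfold FF
  rw [dif_pos h]
  exact h.choose_spec

theorem Ext.ne_top {lam : ℂ → ℂ} {t : ℝ} {F : ℂ → ℂ} (hF : Ext lam t F) (s : ℂ) : meromorphicOrderAt F s ≠ ⊤ := by
  obtain ⟨hF, d, hd⟩ := hF
  have hx : d < (((d + 1 : ℝ) : ℂ)).re := by
    rw [Complex.ofReal_re]
    linarith
  refine hF.meromorphicOrderAt_ne_top_of_isPreconnected (x := ((d + 1 : ℝ) : ℂ)) isPreconnected_univ (mem_univ _)
    (mem_univ _) ?_
  rw [meromorphicOrderAt_ne_top_iff_eventually_ne_zero (hF _ (mem_univ _))]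
  have h3 : ∀ᶠ z in 𝓝 (((d + 1 : ℝ) : ℂ)), d < z.re := (isOpen_hp d).mem_nhds hx
  filter_upwards [h3.filter_mono nhdsWithin_le_nhds] with z hz
  rw [hd z hz]
  exact Complex.exp_ne_zero _

theorem Ext.near {lam : ℂ → ℂ} {t : ℝ} {F G : ℂ → ℂ} (hF : Ext lam t F) (hG : Ext lam t G) (s : ℂ) :
    F =ᶠ[𝓝[≠] s] G := by
  obtain ⟨hF, d, hd⟩ := hF
  obtain ⟨hG, e, he⟩ := hG
  refine eq_near (a := s.re - 1) (d := max d e) (hF.mono_set (subset_univ _)) (hG.mono_set (subset_univ _)) ?_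
    (by linarith)
  intro z hz
  rw [hd z (lt_of_le_of_lt (le_max_left _ _) hz), he z (lt_of_le_of_lt (le_max_right _ _) hz)]

/-- in the half-plane of analyticity of `λ` -/
theorem Ext.near_exp {lam : ℂ → ℂ} {t c : ℝ} {F : ℂ → ℂ} (hF : Ext lam t F)
    (hl : DifferentiableOn ℂ lam {s | c < s.re}) {s : ℂ} (hs : c < s.re) :
    F =ᶠ[𝓝[≠] s] fun s => Complex.exp (lam s - lam (s + t * I)) := by
  obtain ⟨hF, d, hd⟩ := hF
  refine eq_near (a := c) (d := d) (hF.mono_set (subset_univ _)) ?_ hd hs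
  have h1 : DifferentiableOn ℂ (fun s => Complex.exp (lam s - lam (s + t * I))) {s | c < s.re} := by
    refine (hl.sub (hl.comp (f := fun s => s + t * I) (differentiable_id.add_const _).differentiableOn ?_)).cexp
    intro z hz
    rw [Set.mem_ofPred_eq, re_add_tI]
    exact hz
  exact fun z hz => ((h1.analyticOnNhd (isOpen_hp c)) z hz).meromorphicAt

theorem analyticAt_exp_diff {lam : ℂ → ℂ} {c : ℝ} (hl : DifferentiableOn ℂ lam {s | c < s.re}) (t : ℝ) {s : ℂ}
    (hs : c < s.re) : AnalyticAt ℂ (fun s => Complex.exp (lam s - lam (s + t * I))) s := by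
  have hA := hl.analyticOnNhd (isOpen_hp c)
  have h1 : AnalyticAt ℂ (fun s => lam (s + t * I)) s :=
    (hA (s + t * I) (by rw [Set.mem_ofPred_eq, re_add_tI]; exact hs)).comp_of_eq
      (analyticAt_id.add analyticAt_const) rfl
  exact ((hA s hs).sub h1).cexp

/-- the orders -/
noncomputable def oo (lam : ℂ → ℂ) (t : ℝ) (s : ℂ) : ℤ := (meromorphicOrderAt (FF lam t) s).untop₀

theorem oo_zero {lam : ℂ → ℂ} {c : ℝ} (hl : DifferentiableOn ℂ lam {s | c < s.re}) {t : ℝ} (ht : t ∈ Per lam)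
    {s : ℂ} (hs : c < s.re) : oo lam t s = 0 := by
  unfold oo
  rw [meromorphicOrderAt_congr ((FF_spec ht).near_exp hl hs)]
  have h1 := (analyticAt_exp_diff hl t hs).meromorphicNFAt
  rw [h1.meromorphicOrderAt_eq_zero_iff.2 (Complex.exp_ne_zero _)]
  rfl

theorem cocycle {lam : ℂ → ℂ} (h1 : (1 : ℝ) ∈ Per lam) (h2 : √2 ∈ Per lam) (h3 : √3 ∈ Per lam) :
    Cocycle (Per lam) (oo lam) where
  one := h1
  two := h2
  three := h3
  add := by
    intro t ht u hu s
    have e1 := FF_spec ht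
    have e2 := FF_spec hu
    unfold oo
    rw [meromorphicOrderAt_congr ((FF_spec ((Per lam).add_mem ht hu)).near (e1.add e2) s)]
    have e3 : (fun s => FF lam t s * FF lam u (s + t * I)) = FF lam t * (FF lam u ∘ (· + (t : ℂ) * I)) := rfl
    have e4 : MeromorphicAt (FF lam u ∘ (· + (t : ℂ) * I)) s := mero_shift e2.1 (t * I) s (mem_univ _)
    rw [e3, meromorphicOrderAt_mul (e1.1 s (mem_univ _)) e4,
      meromorphicOrderAt_comp_add_const_eq_meromorphicOrderAt]
    exact WithTop.untop₀_add (e1.ne_top _) (e2.ne_top _)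
  fin := by
    intro t ht R
    have e1 := FF_spec ht
    have hM : MeromorphicOn (FF lam t) (closedBall 0 R) := e1.1.mono_set (subset_univ _)
    refine ((MeromorphicOn.divisor (FF lam t) (closedBall 0 R)).finiteSupport (isCompact_closedBall 0 R)).subset ?_
    rintro s ⟨hs, hs'⟩
    rw [Function.mem_support, MeromorphicOn.divisor_apply hM (by rw [mem_closedBall_zero_iff]; exact hs)]
    exact hs'

/-- identity theorem for functions in normal form -/
theorem nf_eqOn {U : Set ℂ} (hU : IsPreconnected U) {f g : ℂ → ℂ} (hf : MeromorphicNFOn f U)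
    (hg : MeromorphicNFOn g U) {x : ℂ} (hx : x ∈ U) (h : f =ᶠ[𝓝 x] g) : EqOn f g U := by
  intro y hy
  have hm : MeromorphicOn (f - g) U := hf.meromorphicOn.sub hg.meromorphicOn
  have h1 : meromorphicOrderAt (f - g) x = ⊤ := by
    rw [meromorphicOrderAt_eq_top_iff]
    filter_upwards [h.filter_mono nhdsWithin_le_nhds] with z hz
    simp [hz]
  have h2 : meromorphicOrderAt (f - g) y = ⊤ := by
    by_contra hcon
    exact (hm.meromorphicOrderAt_ne_top_of_isPreconnected hU hy hx hcon) h1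
  rw [meromorphicOrderAt_eq_top_iff] at h2
  have h3 : f =ᶠ[𝓝[≠] y] g := by
    filter_upwards [h2] with z hz
    exact sub_eq_zero.1 hz
  exact (((hf hy).eventuallyEq_nhdsNE_iff_eventuallyEq_nhds (hg hy)).1 h3).eq_of_nhds

/-- gluing over larger and larger discs -/
theorem glue_balls {f : ℂ → ℂ} {c : ℝ} (hf : DifferentiableOn ℂ f {s | c < s.re}) {s0 : ℂ} (hs0 : c < s0.re)
    (h : ∀ R : ℝ, 0 < R → ∃ G : ℂ → ℂ, MeromorphicOn G (ball s0 R) ∧ G =ᶠ[𝓝 s0] f) :
    ∃ F : ℂ → ℂ, MeromorphicOn F univ ∧ ∀ s : ℂ, c < s.re → F s = f s := by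
  choose G hG hGf using fun n : ℕ => h (n + 1) (by positivity)
  set N : ℕ → ℂ → ℂ := fun n => toMeromorphicNFOn (G n) (ball s0 (n + 1)) with hN
  have hNF : ∀ n, MeromorphicNFOn (N n) (ball s0 (n + 1)) := fun n => meromorphicNFOn_toMeromorphicNFOn _ _
  have hs0b : ∀ n : ℕ, s0 ∈ ball s0 ((n : ℝ) + 1) := fun n => mem_ball_self (by positivity)
  have hfA : AnalyticOnNhd ℂ f {s | c < s.re} := hf.analyticOnNhd (isOpen_hp c)
  have hNf : ∀ n, N n =ᶠ[𝓝 s0] f := by
    intro n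
    refine ((hNF n (hs0b n)).eventuallyEq_nhdsNE_iff_eventuallyEq_nhds (hfA s0 hs0).meromorphicNFAt).1 ?_
    exact ((hG n).toMeromorphicNFOn_eq_self_on_nhdsNE (hs0b n)).trans
      ((hGf n).filter_mono nhdsWithin_le_nhds)
  have hNN : ∀ m n : ℕ, m ≤ n → EqOn (N m) (N n) (ball s0 (m + 1)) := by
    intro m n hmn
    have hmn' : (m : ℝ) + 1 ≤ n + 1 := by
      have : (m : ℝ) ≤ n := by exact_mod_cast hmn
      linarith
    exact nf_eqOn (convex_ball _ _).isPreconnected (hNF m) (fun z hz => hNF n (ball_subset_ball hmn' hz))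
      (hs0b m) ((hNf m).trans (hNf n).symm)
  set k : ℂ → ℕ := fun s => ⌈dist s s0⌉₊ with hk
  have hks : ∀ s, s ∈ ball s0 ((k s : ℝ) + 1) := by
    intro s
    rw [mem_ball]
    have := Nat.le_ceil (dist s s0)
    simp only [hk]
    linarith
  refine ⟨fun s => N (k s) s, ?_, ?_⟩
  · intro u _
    -- near `u` the function is `N n`
    set n : ℕ := ⌈dist u s0 + 1⌉₊ with hn
    have hu : u ∈ ball s0 ((n : ℝ) + 1) := by
      rw [mem_ball]
      have := Nat.le_ceil (dist u s0 + 1)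
      simp only [hn]
      linarith
    refine (hNF n hu).meromorphicAt.congr ?_
    refine Filter.Eventually.filter_mono nhdsWithin_le_nhds ?_
    filter_upwards [ball_mem_nhds u one_pos] with z hz
    have h1 : k z ≤ n := by
      apply Nat.ceil_le_ceil
      have := dist_triangle z u s0
      rw [mem_ball] at hz
      linarith
    exact (hNN _ _ h1 (hks z)).symm
  · intro s hs
    have h1 : IsPreconnected ({s : ℂ | c < s.re} ∩ ball s0 ((k s : ℝ) + 1)) :=
      ((convex_halfSpace_re_gt c).inter (convex_ball _ _)).isPreconnected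
    exact nf_eqOn h1 (fun z hz => hNF _ hz.2) (fun z hz => (hfA z hz.1).meromorphicNFAt)
      ⟨hs0, hs0b _⟩ (hNf _) ⟨hs, hks s⟩

end Pool.Agent.K7.H65.EP
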