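import Pool.Agent.K7.H65.EP.Core

/-!
# The continuation to a disc
-/

set_option autoImplicit false

namespace Pool.Agent.K7.H65.EP

open Complex Metric Filter Topology Set
open Pool.Agent.K7.H58.EP (isOpen_hp isConnected_hp hp_mono eq_near)

/-- the function with the divisor of `exp (λ(s) - λ(s + i t))` removed -/
theorem quotient {lam : ℂ → ℂ} {c : ℝ} (hl : DifferentiableOn ℂ lam {s | c < s.re}) {t : ℝ} (ht : t ∈ Per lam)
    {Q : ℂ → ℂ} {d : ℂ → ℤ} (hQm : MeromorphicOn Q univ) (hQo : ∀ z, meromorphicOrderAt Q z = d z)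
    (hQA : ∀ s, c < s.re → AnalyticAt ℂ Q s) (hQ0 : ∀ s, c < s.re → Q s ≠ 0) {s0 : ℂ} {ρ : ℝ}
    (hd : ∀ s ∈ ball s0 ρ, d s - d (s + t * I) = oo lam t s) :
    ∃ g : ℂ → ℂ, DifferentiableOn ℂ g (ball s0 ρ) ∧ ∀ s ∈ ball s0 ρ, c < s.re →
      (deriv lam s - logDeriv Q s) - (deriv lam (s + t * I) - logDeriv Q (s + t * I)) = g s := by
  have e1 := FF_spec ht
  set B : ℂ → ℂ := fun s => Q (s + t * I) with hB
  have hBm : MeromorphicOn B univ := mero_shift hQm _
  set P : ℂ → ℂ := FF lam t * B / Q with hP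
  have hPm : MeromorphicOn P univ := (e1.1.mul hBm).div hQm
  have hPo : ∀ s ∈ ball s0 ρ, meromorphicOrderAt P s = 0 := by
    intro s hs
    have hm1 := e1.1 s (mem_univ _)
    have hm2 := hBm s (mem_univ _)
    have hm3 := hQm s (mem_univ _)
    have o1 : meromorphicOrderAt (FF lam t) s = ((oo lam t s : ℤ) : WithTop ℤ) :=
      (WithTop.coe_untop₀_of_ne_top (e1.ne_top s)).symm
    have o2 : meromorphicOrderAt B s = ((d (s + t * I) : ℤ) : WithTop ℤ) := by
      have : B = Q ∘ (· + (t : ℂ) * I) := rfl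
      rw [this, meromorphicOrderAt_comp_add_const_eq_meromorphicOrderAt, hQo]
    rw [hP, meromorphicOrderAt_div (hm1.mul hm2) hm3, meromorphicOrderAt_mul hm1 hm2, o1, o2, hQo]
    have h1 := hd s hs
    have h2 : oo lam t s + d (s + t * I) - d s = 0 := by omega
    exact_mod_cast h2
  set N : ℂ → ℂ := toMeromorphicNFOn P (ball s0 ρ) with hN
  have hPb : MeromorphicOn P (ball s0 ρ) := hPm.mono_set (subset_univ _)
  have hNF : MeromorphicNFOn N (ball s0 ρ) := meromorphicNFOn_toMeromorphicNFOn _ _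
  have hNo : ∀ s ∈ ball s0 ρ, meromorphicOrderAt N s = 0 := fun s hs => by
    rw [hN, meromorphicOrderAt_toMeromorphicNFOn hPb hs, hPo s hs]
  have hNA : ∀ s ∈ ball s0 ρ, AnalyticAt ℂ N s := fun s hs =>
    (hNF hs).meromorphicOrderAt_nonneg_iff_analyticAt.1 (hNo s hs).ge
  have hN0 : ∀ s ∈ ball s0 ρ, N s ≠ 0 := fun s hs => (hNF hs).meromorphicOrderAt_eq_zero_iff.1 (hNo s hs)
  refine ⟨logDeriv N, ?_, ?_⟩
  · intro s hs
    exact ((hNA s hs).deriv.div (hNA s hs) (hN0 s hs)).differentiableAt.differentiableWithinAt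
  · intro s hs hcs
    have hcs' : c < (s + t * I).re := by rw [re_add_tI]; exact hcs
    set A : ℂ → ℂ := fun s => Complex.exp (lam s - lam (s + t * I)) with hA
    have hAA : AnalyticAt ℂ A s := analyticAt_exp_diff hl t hcs
    have hBA : AnalyticAt ℂ B s := (hQA _ hcs').comp_of_eq (analyticAt_id.add analyticAt_const) rfl
    have hE : AnalyticAt ℂ (A * B / Q) s := (hAA.mul hBA).div (hQA s hcs) (hQ0 s hcs)
    have hNE : N =ᶠ[𝓝 s] A * B / Q := by
      refine ((hNF hs).eventuallyEq_nhdsNE_iff_eventuallyEq_nhds hE.meromorphicNFAt).1 ?_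
      refine (hPb.toMeromorphicNFOn_eq_self_on_nhdsNE hs).trans ?_
      filter_upwards [e1.near_exp hl hcs] with z hz
      simp only [hP, Pi.div_apply, Pi.mul_apply, hA, hz]
    have hlA := hl.analyticOnNhd (isOpen_hp c)
    have d1 : logDeriv A s = deriv lam s - deriv lam (s + t * I) := by
      have h1 : HasDerivAt (fun z => lam (z + t * I)) (deriv lam (s + t * I)) s := by
        have := ((hlA _ hcs').differentiableAt.hasDerivAt).comp_add_const s (t * I)
        exact this
      have h2 : HasDerivAt A (Complex.exp (lam s - lam (s + t * I)) * (deriv lam s - deriv lam (s + t * I))) s :=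
        ((hlA s hcs).differentiableAt.hasDerivAt.sub h1).cexp
      rw [logDeriv_apply, h2.deriv]
      exact mul_div_cancel_left₀ _ (Complex.exp_ne_zero _)
    have d2 : logDeriv B s = logDeriv Q (s + t * I) := by
      rw [logDeriv_apply, logDeriv_apply, hB, deriv_comp_add_const]
    have hA0 : A s ≠ 0 := Complex.exp_ne_zero _
    have hB0 : B s ≠ 0 := hQ0 _ hcs'
    have d3 : logDeriv (A * B / Q) s = logDeriv A s + logDeriv B s - logDeriv Q s := by
      have h1 := logDeriv_div (f := fun z => A z * B z) (g := Q) s (mul_ne_zero hA0 hB0) (hQ0 s hcs)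
        (hAA.differentiableAt.mul hBA.differentiableAt) (hQA s hcs).differentiableAt
      rw [logDeriv_mul s hA0 hB0 hAA.differentiableAt hBA.differentiableAt] at h1
      exact h1
    rw [(logDeriv_congr_nhds hNE).eq_of_nhds, d3, d1, d2]
    ring

theorem local_ext {lam : ℂ → ℂ} {c : ℝ} (hl : DifferentiableOn ℂ lam {s | c < s.re})
    (h1 : (1 : ℝ) ∈ Per lam) (h2 : √2 ∈ Per lam) (h3 : √3 ∈ Per lam) {s0 : ℂ} (hs0 : c < s0.re) {R : ℝ}
    (hR : 0 < R) : ∃ G : ℂ → ℂ, MeromorphicOn G (ball s0 R) ∧ G =ᶠ[𝓝 s0] fun s => Complex.exp (lam s) := by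
  classical
  obtain ⟨ρ, hρ, hext⟩ := extend c s0 hs0 hR
  have hc := cocycle h1 h2 h3
  have hW0 : ∀ s, c < s.re → hc.W s = 0 := fun s hs => hc.W_eq_zero (fun t ht => oo_zero hl ht hs)
  set b : ℝ := ‖s0‖ + ρ + 2 with hb
  set d : ℂ → ℤ := fun z => if ‖z‖ ≤ b then hc.W z else 0 with hd
  have hdf : d.HasFiniteSupport := by
    refine (hc.W_fin b).subset ?_
    intro z hz
    rw [Function.mem_support] at hz
    simp only [hd] at hz
    by_cases h : ‖z‖ ≤ b
    · rw [if_pos h] at hz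
      exact ⟨h, hz⟩
    · rw [if_neg h] at hz
      exact absurd rfl hz
  have hdW : ∀ z, ‖z‖ ≤ b → d z = hc.W z := fun z hz => if_pos hz
  have hd0 : ∀ s, c < s.re → d s = 0 := by
    intro s hs
    simp only [hd]
    split_ifs
    · exact hW0 s hs
    · rfl
  set Q : ℂ → ℂ := ∏ᶠ u, (· - u) ^ d u with hQ
  have hQo : ∀ z, meromorphicOrderAt Q z = d z := fun z => Function.FactorizedRational.meromorphicOrderAt_eq d hdf
  have hQm : MeromorphicOn Q univ := (Function.FactorizedRational.meromorphicNFOn_univ d).meromorphicOn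
  have hQA : ∀ s, c < s.re → AnalyticAt ℂ Q s := fun s hs =>
    Function.FactorizedRational.analyticAt (by rw [hd0 s hs])
  have hQ0 : ∀ s, c < s.re → Q s ≠ 0 := fun s hs => Function.FactorizedRational.ne_zero (hd0 s hs)
  have hdiff : ∀ t : ℝ, 0 ≤ t → t ≤ 2 → (∀ s, hc.W s - hc.W (s + t * I) = oo lam t s) →
      ∀ s ∈ ball s0 ρ, d s - d (s + t * I) = oo lam t s := by
    intro t ht0 ht2 hW s hs
    have n1 : ‖s‖ ≤ ‖s0‖ + ρ := by
      rw [mem_ball, dist_eq_norm] at hs
      have := norm_add_le s0 (s - s0)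
      rw [add_sub_cancel] at this
      linarith
    have n2 : ‖s + t * I‖ ≤ b := by
      have h5 := norm_add_le s (t * I)
      rw [norm_mul, norm_I, mul_one, Complex.norm_real, Real.norm_eq_abs, abs_of_nonneg ht0] at h5
      rw [hb]
      linarith
    rw [hdW s (by rw [hb]; linarith), hdW _ n2, hW]
  obtain ⟨g1, hg1, e1⟩ := quotient hl h1 hQm hQo hQA hQ0 (hdiff 1 zero_le_one one_le_two hc.W_sub_one)
  obtain ⟨g2, hg2, e2⟩ := quotient hl h2 hQm hQo hQA hQ0
    (hdiff √2 sqrt2_pos.le (by linarith [sqrt2_lt]) hc.W_sub_two)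
  have hlA := hl.analyticOnNhd (isOpen_hp c)
  obtain ⟨H, hH, hHh⟩ := hext (fun s => deriv lam s - logDeriv Q s) g1 g2
    (fun s hs => ((hlA s hs).deriv.sub ((hQA s hs).deriv.div (hQA s hs)
      (hQ0 s hs))).differentiableAt.differentiableWithinAt) hg1 hg2 e1 e2
  obtain ⟨Φ, hΦ⟩ := hH.isExactOn_ball
  -- the quotient of the two sides is constant near the centre
  set E : ℂ → ℂ := fun s => Complex.exp (-lam s) * Q s * Complex.exp (Φ s) with hE
  have hEd : ∀ᶠ s in 𝓝 s0, HasDerivAt E 0 s := by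
    filter_upwards [hHh, isOpen_ball.mem_nhds (mem_ball_self hR), (isOpen_hp c).mem_nhds hs0] with s f1 f2 f3
    have k1 := (hlA s f3).differentiableAt.hasDerivAt
    have k2 := (hQA s f3).differentiableAt.hasDerivAt
    have k3 := hΦ s f2
    have k4 := (k1.neg.cexp.mul k2).mul k3.cexp
    refine k4.congr_deriv ?_
    rw [f1]
    have k5 : logDeriv Q s * Q s = deriv Q s := by
      rw [logDeriv_apply]
      exact div_mul_cancel₀ _ (hQ0 s f3)
    simp only [Pi.mul_apply]
    linear_combination (-Complex.exp (-lam s) * Complex.exp (Φ s)) * k5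
  have hE0 : E s0 ≠ 0 := mul_ne_zero (mul_ne_zero (Complex.exp_ne_zero _) (hQ0 s0 hs0)) (Complex.exp_ne_zero _)
  have hEc : ∀ᶠ s in 𝓝 s0, E s = E s0 := by
    obtain ⟨ε, hε, hball⟩ := Metric.eventually_nhds_iff_ball.1 hEd
    filter_upwards [ball_mem_nhds s0 hε] with s hs
    exact isOpen_ball.is_const_of_deriv_eq_zero (convex_ball s0 ε).isPreconnected
      (fun z hz => (hball z hz).differentiableAt.differentiableWithinAt)
      (fun z hz => (hball z hz).deriv) hs (mem_ball_self hε)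
  refine ⟨fun s => (E s0)⁻¹ * (Q s * Complex.exp (Φ s)), ?_, ?_⟩
  · intro s hs
    have k1 : AnalyticAt ℂ Φ s := by
      have : DifferentiableOn ℂ Φ (ball s0 R) := fun z hz => (hΦ z hz).differentiableAt.differentiableWithinAt
      exact (this.analyticOnNhd isOpen_ball) s hs
    exact (MeromorphicAt.const _ _).mul ((hQm s (mem_univ _)).mul k1.cexp.meromorphicAt)
  · filter_upwards [hEc] with s hs
    rw [← hs]
    simp only [hE]
    rw [Complex.exp_neg]
    have k1 : Q s ≠ 0 := by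
      intro h0
      rw [← hs] at hE0
      simp only [hE, h0, mul_zero, zero_mul, ne_eq, not_true_eq_false] at hE0
    have k2 := Complex.exp_ne_zero (lam s)
    have k3 := Complex.exp_ne_zero (Φ s)
    field_simp

/-- **Three unitary periods suffice.** -/
theorem three_periods {lam : ℂ → ℂ} {c : ℝ} (hl : DifferentiableOn ℂ lam {s | c < s.re})
    (h1 : (1 : ℝ) ∈ Per lam) (h2 : √2 ∈ Per lam) (h3 : √3 ∈ Per lam) :
    ∃ F : ℂ → ℂ, MeromorphicOn F univ ∧ ∀ s : ℂ, c < s.re → F s = Complex.exp (lam s) := by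
  have hs0 : c < (((c + 1 : ℝ) : ℂ)).re := by
    rw [Complex.ofReal_re]
    linarith
  exact glue_balls hl.cexp hs0 (fun R hR => local_ext hl h1 h2 h3 hs0 hR)

end Pool.Agent.K7.H65.EP
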