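import Pool.Agent.K7.H58.EP.Final
import Pool.Agent.K7.H65.EP.Local

/-!
# Isolation and rigidity from finitely many twists on a vertical line
-/

set_option autoImplicit false

namespace Pool.Agent.K7.H65.EP

open Complex Filter Topology Set
open Pool.Agent.K7.H58.EP

/-- **A family with the three unitary periods `a, a√2, a√3` modulo the good families is good.** -/
theorem good_of_periods {x : Fam} (hx : x ∈ Tm) {a : ℝ} (ha : 0 < a)
    (h : ∀ u ∈ ({1, √2, √3} : Set ℝ), x - x * tw (((a * u : ℝ) : ℂ) * I) ∈ Good) : x ∈ Good := by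
  obtain ⟨c, hc⟩ := exists_an hx
  refine ⟨hx, ?_⟩
  have ha' : (a : ℂ) ≠ 0 := by exact_mod_cast ha.ne'
  have hl : DifferentiableOn ℂ (fun s => Lam x (a * s)) {s | c / a < s.re} := by
    refine hc.2.comp (f := fun s : ℂ => (a : ℂ) * s) (differentiable_id.const_mul _).differentiableOn ?_
    intro s hs
    rw [Set.mem_ofPred_eq] at hs ⊢
    rw [div_lt_iff₀ ha] at hs
    rw [Complex.re_ofReal_mul]
    linarith
  have hper : ∀ u ∈ ({1, √2, √3} : Set ℝ), u ∈ Per (fun s => Lam x (a * s)) := by
    intro u hu
    obtain ⟨_, F, hF, d, hd⟩ := h u hu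
    refine ⟨fun s => F (a * s), ?_, max c d / a, fun s hs => ?_⟩
    · intro s _
      exact (hF (a * s) (mem_univ _)).comp_analyticAt (g := fun s : ℂ => (a : ℂ) * s)
        (analyticAt_const.mul analyticAt_id)
    · rw [div_lt_iff₀ ha] at hs
      have hre : ((a : ℂ) * s).re = s.re * a := by rw [Complex.re_ofReal_mul, mul_comm]
      have h1 : c < ((a : ℂ) * s).re := by rw [hre]; exact lt_of_le_of_lt (le_max_left _ _) hs
      have h2 : d < ((a : ℂ) * s).re := by rw [hre]; exact lt_of_le_of_lt (le_max_right _ _) hs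
      have h3 : c < ((a : ℂ) * s + ((a * u : ℝ) : ℂ) * I).re := by rw [re_add_tI]; exact h1
      change F (a * s) = _
      have h6 : Summable fun p : Nat.Primes => ell ((yy p ((a : ℂ) * s) : ℂˣ) : ℂ)
          ((-(x * tw (((a * u : ℝ) : ℂ) * I))) p) := by
        refine (summable_tw (hc.1 _ h3)).neg.congr fun p => ?_
        rw [Pi.neg_apply, map_neg]
      rw [hd _ h2, sub_eq_add_neg, Lam_add (hc.1 _ h1) h6, Lam_neg, Lam_tw, ← sub_eq_add_neg]
      congr 3
      push_cast
      ring
  obtain ⟨F, hF, hF'⟩ := three_periods hl (hper 1 (by simp)) (hper √2 (by simp)) (hper √3 (by simp))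
  refine ⟨fun s => F ((a : ℂ)⁻¹ * s), ?_, c, fun s hs => ?_⟩
  · intro s _
    exact (hF ((a : ℂ)⁻¹ * s) (mem_univ _)).comp_analyticAt (g := fun s : ℂ => (a : ℂ)⁻¹ * s)
      (analyticAt_const.mul analyticAt_id)
  · have h1 : c / a < ((a : ℂ)⁻¹ * s).re := by
      rw [← Complex.ofReal_inv, Complex.re_ofReal_mul, div_eq_inv_mul]
      exact mul_lt_mul_of_pos_left hs (inv_pos.2 ha)
    change F ((a : ℂ)⁻¹ * s) = _
    rw [hF' _ h1, mul_inv_cancel_left₀ ha']

/-- the points of the grid -/
noncomputable def gp (z : ℂ) (a : ℝ) (p q r : ℕ) : ℂ := z + ((a * (p + q * √2 + r * √3) : ℝ) : ℂ) * I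

/-- **Isolation from finitely many twists on a vertical line.** -/
theorem isolate_grid (z : ℂ) {a : ℝ} (ha : 0 < a) : ∀ (d : ℕ) (x : ℕ → Fam), (∀ j, x j ∈ Tm) →
    (∀ p q r : ℕ, p + q + r < d → ∑ j ∈ Finset.range d, x j * tw (j * gp z a p q r) ∈ Good) →
    ∀ j < d, x j ∈ Good := by
  intro d
  induction d with
  | zero =>
    intro x _ _ j hj
    exact absurd hj (Nat.not_lt_zero j)
  | succ d ih =>
    intro x hx h
    -- differences in one of the three directions
    have hdir : ∀ (u : ℝ) (p' q' r' : ℕ), p' + q' + r' = 1 → (p' : ℝ) + q' * √2 + r' * √3 = u →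
        ∀ k < d, x (k + 1) - x (k + 1) * tw ((((a * (k + 1)) * u : ℝ) : ℂ) * I) ∈ Good := by
      intro u p' q' r' hsum hu k hk
      have h1 := ih (fun k => x (k + 1) * tw ((((a * (k + 1)) * u : ℝ) : ℂ) * I) - x (k + 1)) ?_ ?_ k hk
      · have h2 := Good.neg_mem h1
        rwa [neg_sub] at h2
      · intro j
        exact Tm.sub_mem (Tm.mul_mem (hx _) (tw_tame _)) (hx _)
      · intro p q r hpqr
        have g1 := h (p + p') (q + q') (r + r') (by omega)
        have g2 := h p q r (by omega)
        have hg : gp z a (p + p') (q + q') (r + r') = gp z a p q r + ((a * u : ℝ) : ℂ) * I := by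
          unfold gp
          rw [← hu]
          push_cast
          ring
        set w := gp z a p q r with hw
        have h3 := good_tw (Good.sub_mem g1 g2) (-w)
        rw [hg] at h3
        have h4 : (∑ j ∈ Finset.range (d + 1), x j * tw (j * (w + ((a * u : ℝ) : ℂ) * I)) -
            ∑ j ∈ Finset.range (d + 1), x j * tw (j * w)) * tw (-w) =
            ∑ j ∈ Finset.range d, (x (j + 1) * tw ((((a * (j + 1)) * u : ℝ) : ℂ) * I) - x (j + 1)) *
              tw (j * w) := by
          rw [← Finset.sum_sub_distrib, Finset.sum_range_succ', add_mul, Finset.sum_mul]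
          have h0 : (x 0 * tw (((0 : ℕ) : ℂ) * (w + ((a * u : ℝ) : ℂ) * I)) - x 0 * tw (((0 : ℕ) : ℂ) * w)) *
              tw (-w) = 0 := by
            rw [Nat.cast_zero, zero_mul, zero_mul, sub_self, zero_mul]
          rw [h0, add_zero]
          refine Finset.sum_congr rfl fun k _ => ?_
          have e1 : tw (((k + 1 : ℕ) : ℂ) * (w + ((a * u : ℝ) : ℂ) * I)) * tw (-w) =
              tw ((((a * (k + 1)) * u : ℝ) : ℂ) * I) * tw (k * w) := by
            rw [← tw_add, ← tw_add]
            congr 1
            push_cast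
            ring
          have e2 : tw (((k + 1 : ℕ) : ℂ) * w) * tw (-w) = tw (k * w) := by
            rw [← tw_add]
            congr 1
            push_cast
            ring
          linear_combination x (k + 1) * e1 - x (k + 1) * e2
        rw [h4] at h3
        exact h3
    have hpos : ∀ k < d, x (k + 1) ∈ Good := by
      intro k hk
      refine good_of_periods (hx _) (a := a * (k + 1)) (by positivity) ?_
      intro u hu
      rcases hu with rfl | rfl | rfl
      · exact hdir 1 1 0 0 rfl (by simp) k hk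
      · exact hdir √2 0 1 0 rfl (by simp) k hk
      · exact hdir √3 0 0 1 rfl (by simp) k hk
    intro j hj
    rcases j with _ | k
    · have h1 := h 0 0 0 (by omega)
      rw [Finset.sum_range_succ'] at h1
      have h2 : ∑ k ∈ Finset.range d, x (k + 1) * tw (((k + 1 : ℕ) : ℂ) * gp z a 0 0 0) ∈ Good :=
        Good.sum_mem fun k hk => good_tw (hpos k (Finset.mem_range.1 hk)) _
      have h3 := Good.sub_mem h1 h2
      rw [add_sub_cancel_left] at h3
      simpa [tw_zero] using h3
    · exact hpos k (by omega)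

/-- isolation for finite sums indexed by integers in an interval of length `d` -/
theorem isolate_grid_int {d : ℕ} {b : ℤ} {J : Finset ℤ} (hJ : ∀ j ∈ J, b ≤ j ∧ j < b + d) {x : ℤ → Fam}
    (hx : ∀ j ∈ J, x j ∈ Tm) (z : ℂ) {a : ℝ} (ha : 0 < a)
    (h : ∀ p q r : ℕ, p + q + r < d → ∑ j ∈ J, x j * tw (j * gp z a p q r) ∈ Good) : ∀ j ∈ J, x j ∈ Good := by
  classical
  intro j₀ hj₀
  set y : ℕ → Fam := fun k => if b + k ∈ J then x (b + k) else 0 with hy
  have h1 := isolate_grid z ha d y ?_ ?_ (j₀ - b).toNat ?_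
  · have h2 : b + ((j₀ - b).toNat : ℤ) = j₀ := by
      rw [Int.toNat_of_nonneg (by have := hJ j₀ hj₀; omega)]
      ring
    simp only [hy, h2, if_pos hj₀] at h1
    exact h1
  · intro k
    simp only [hy]
    split_ifs with hk
    · exact hx _ hk
    · exact Tm.zero_mem
  · intro p q r hpqr
    have h3 := good_tw (h p q r hpqr) (-(b * gp z a p q r))
    set w := gp z a p q r
    have h4 : (∑ j ∈ J, x j * tw (j * w)) * tw (-(b * w)) = ∑ k ∈ Finset.range d, y k * tw (k * w) := by
      rw [Finset.sum_mul]
      have h5 : ∀ k ∈ Finset.range d, y k * tw (k * w) =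
          if b + (k : ℤ) ∈ J then x (b + k) * tw (((b + k : ℤ) : ℂ) * w) * tw (-(b * w)) else 0 := by
        intro k _
        simp only [hy]
        split_ifs with hk
        · rw [mul_assoc, ← tw_add]
          congr 2
          push_cast
          ring
        · rw [zero_mul]
      rw [Finset.sum_congr rfl h5, ← Finset.sum_filter]
      refine Finset.sum_bij' (fun j _ => (j - b).toNat) (fun k _ => b + (k : ℤ)) ?_ ?_ ?_ ?_ ?_
      · intro j hj
        have := hJ j hj
        rw [Finset.mem_filter, Finset.mem_range, Int.toNat_of_nonneg (by omega), add_sub_cancel]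
        exact ⟨by omega, hj⟩
      · intro k hk
        exact (Finset.mem_filter.1 hk).2
      · intro j hj
        have := hJ j hj
        rw [Int.toNat_of_nonneg (by omega), add_sub_cancel]
      · intro k _
        simp
      · intro j hj
        have := hJ j hj
        rw [Int.toNat_of_nonneg (by omega), add_sub_cancel]
    rw [← h4]
    exact h3
  · have := hJ j₀ hj₀
    omega

variable {n m : ℕ} {A : AutomorphicSystem}

/-- **Rigidity on a vertical line.** -/
theorem rigidity_line {α : GLData n} (hα : α ∈ A.gl n) {b : GSpData m} (hb : b ∈ A.gsp m)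
    (M : (ℤ × (Fin (n + m) → ℤ)) →₀ ℕ) (S : Finset Nat.Primes) {d : ℕ} {e : ℤ}
    (hM : ∀ l ∈ M.support, e ≤ deg l ∧ deg l < e + d) (z₀ : ℂ) {a : ℝ} (ha : 0 < a)
    (h : ∀ p q r : ℕ, p + q + r < d → Continues (LW S (ind α b (gp z₀ a p q r)) M)) :
    (∀ z : ℂ, Continues (LW S (ind α b z) M)) ∧
      ∀ j : ℤ, Continues (LW S (ind α b 0) (M.filter fun l => deg l = j)) := by
  classical
  have hind : ∀ z : ℂ, ind α b z ∈ A.gsp (n + m) := fun z => ind_mem hα hb z
  have h1 : ∀ j ∈ M.support.image deg, XW (ind α b 0) (M.filter fun l => deg l = j) ∈ Good := by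
    refine isolate_grid_int (d := d) (b := e) ?_ ?_ z₀ ha ?_
    · intro j hj
      obtain ⟨l, hl, rfl⟩ := Finset.mem_image.1 hj
      exact hM l hl
    · intro j _
      exact XX_tame fun l _ => PB_gsp (hind 0) l
    · intro p q r hpqr
      rw [← XW_ind]
      exact (continues_XW (hind _) M S).1 (h p q r hpqr)
  refine ⟨fun z => ?_, fun j => ?_⟩
  · rw [continues_XW (hind z) M S, XW_ind]
    exact Good.sum_mem fun j hj => good_tw (h1 j hj) _
  · rw [continues_XW (hind 0) _ S]
    by_cases hj : j ∈ M.support.image deg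
    · exact h1 j hj
    · have h2 : (M.filter fun l => deg l = j) = 0 := by
        ext l
        rw [Finsupp.filter_apply]
        split_ifs with h3
        · by_contra h4
          exact hj (Finset.mem_image.2 ⟨l, Finsupp.mem_support_iff.2 h4, h3⟩)
        · rfl
      rw [h2]
      unfold XW XX
      simp [Good.zero_mem]

end Pool.Agent.K7.H65.EP
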