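import Pool.Agent.K7.H58.EP.Defs

/-!
# Representations induced from standard Levi subgroups, with several parameters
-/

set_option autoImplicit false

namespace Pool.Agent.K7.H65.EP

open Pool.Agent.K7.H58.EP

/-- The data of the representation of `GSp_{2N}` parabolically induced from
`σ₁ |det|^{w₁} ⊗ ⋯ ⊗ σ_k |det|^{w_k} ⊗ π`, `σ_j` a representation of `GL_{n_j}`, `π` one of `GSp_{2m}`,
`N = n₁ + ⋯ + n_k + m`.  The bijection `e` says in which order the coordinates are taken. -/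
noncomputable def leviInd {k m N : ℕ} {n : Fin k → ℕ} (e : (Σ j, Fin (n j)) ⊕ Fin m ≃ Fin N)
    (α : ∀ j, GLData (n j)) (b : GSpData m) (w : Fin k → ℂ) : GSpData N :=
  fun p => ((b p).1, fun i =>
    match e.symm i with
    | Sum.inl x => α x.1 p x.2 * unr p (w x.1)
    | Sum.inr y => (b p).2 y)

/-- The degrees of a weight of `GSpin_{2N+1}(ℂ)` with respect to the centres of the factors `GL_{n_j}(ℂ)` of the Levi
subgroup `GL_{n₁} × ⋯ × GL_{n_k} × GSpin_{2m+1}`. -/
def leviDeg {k m N : ℕ} {n : Fin k → ℕ} (e : (Σ j, Fin (n j)) ⊕ Fin m ≃ Fin N) (l : ℤ × (Fin N → ℤ)) :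
    Fin k → ℤ := fun j => ∑ i : Fin (n j), l.2 (e (Sum.inl ⟨j, i⟩))

/-- The point `z + i a (p + q √2 + r √3)` of the vertical line through `z`. -/
noncomputable def vert (z : ℂ) (a : ℝ) (g : ℕ × ℕ × ℕ) : ℂ :=
  z + ((a * (g.1 + g.2.1 * √2 + g.2.2 * √3) : ℝ) : ℂ) * Complex.I

end Pool.Agent.K7.H65.EP
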