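import Pool.Agent.K7.H65.EP.Grid
import Pool.Agent.K7.H65.EP.Levi

/-!
# Rigidity for several parameters
-/

set_option autoImplicit false

namespace Pool.Agent.K7.H65.EP

open Complex Filter Topology Set
open Pool.Agent.K7.H58.EP

theorem vert_eq (z : ℂ) (a : ℝ) (p q r : ℕ) : vert z a (p, q, r) = gp z a p q r := rfl

/-- isolation for several parameters -/
theorem isolate_multi {k : ℕ} {d : Fin k → ℕ} {e : Fin k → ℤ} {J : Finset (Fin k → ℤ)}
    (hJ : ∀ D ∈ J, ∀ i, e i ≤ D i ∧ D i < e i + d i) {x : (Fin k → ℤ) → Fam} (hx : ∀ D ∈ J, x D ∈ Tm)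
    (z : Fin k → ℂ) {a : Fin k → ℝ} (ha : ∀ i, 0 < a i)
    (h : ∀ g : Fin k → ℕ × ℕ × ℕ, (∀ i, (g i).1 + (g i).2.1 + (g i).2.2 < d i) →
      ∑ D ∈ J, x D * tw (∑ i, D i * vert (z i) (a i) (g i)) ∈ Good) : ∀ D ∈ J, x D ∈ Good := by
  classical
  have key : ∀ s : Finset (Fin k), ∀ D₀ : Fin k → ℤ, ∀ g : Fin k → ℕ × ℕ × ℕ,
      (∀ i, (g i).1 + (g i).2.1 + (g i).2.2 < d i) →
      ∑ D ∈ J with ∀ i ∈ s, D i = D₀ i, x D * tw (∑ i ∈ sᶜ, D i * vert (z i) (a i) (g i)) ∈ Good := by
    intro s
    induction s using Finset.induction_on with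
    | empty =>
      intro D₀ g hg
      have h1 := h g hg
      simpa using h1
    | insert i s his ih =>
      intro D₀ g hg
      set J' : Finset (Fin k → ℤ) := J.filter fun D => ∀ i' ∈ s, D i' = D₀ i' with hJ'
      set T : (Fin k → ℤ) → ℂ := fun D => ∑ i' ∈ (insert i s)ᶜ, D i' * vert (z i') (a i') (g i') with hT
      have hsub : ∀ D ∈ J', D ∈ J := fun D hD => (Finset.mem_filter.1 hD).1
      have h1 := isolate_grid_int (d := d i) (b := e i) (J := J'.image fun D => D i)
        (x := fun j => ∑ D ∈ J' with D i = j, x D * tw (T D)) ?_ ?_ (z i) (ha i) ?_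
      · have h2 : J.filter (fun D => ∀ i' ∈ insert i s, D i' = D₀ i') = J'.filter fun D => D i = D₀ i := by
          ext D
          simp only [hJ', Finset.mem_filter, Finset.mem_insert, forall_eq_or_imp]
          tauto
        rw [h2]
        by_cases hD : D₀ i ∈ J'.image fun D => D i
        · exact h1 _ hD
        · have h3 : J'.filter (fun D => D i = D₀ i) = ∅ := by
            rw [Finset.filter_eq_empty_iff]
            intro D hD1 hD2
            exact hD (Finset.mem_image.2 ⟨D, hD1, hD2⟩)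
          rw [h3, Finset.sum_empty]
          exact Good.zero_mem
      · intro j hj
        obtain ⟨D, hD, rfl⟩ := Finset.mem_image.1 hj
        exact hJ D (hsub D hD) i
      · intro j _
        exact Tm.sum_mem fun D hD => Tm.mul_mem (hx D (hsub D (Finset.mem_filter.1 hD).1)) (tw_tame _)
      · intro p q r hpqr
        have h3 := ih D₀ (Function.update g i (p, q, r)) (by
          intro i'
          by_cases hi : i' = i
          · subst hi
            rw [Function.update_self]
            exact hpqr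
          · rw [Function.update_of_ne hi]
            exact hg i')
        have h4 : ∀ D : Fin k → ℤ, ∑ i' ∈ sᶜ, (D i' : ℂ) * vert (z i') (a i') (Function.update g i (p, q, r) i') =
            T D + D i * gp (z i) (a i) p q r := by
          intro D
          have h5 : sᶜ = insert i (insert i s)ᶜ := by
            ext i'
            simp only [Finset.mem_compl, Finset.mem_insert]
            by_cases hi : i' = i
            · subst hi
              simp [his]
            · simp [hi]
          rw [h5, Finset.sum_insert (by simp), Function.update_self, vert_eq, add_comm]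
          congr 1
          refine Finset.sum_congr rfl fun i' hi' => ?_
          have hne : i' ≠ i := by
            rintro rfl
            simp at hi'
          rw [Function.update_of_ne hne]
        have h6 : ∑ j ∈ J'.image (fun D => D i), (∑ D ∈ J' with D i = j, x D * tw (T D)) *
            tw (j * gp (z i) (a i) p q r) =
            ∑ D ∈ J', x D * tw (∑ i' ∈ sᶜ, D i' * vert (z i') (a i') (Function.update g i (p, q, r) i')) := by
          rw [← Finset.sum_fiberwise_of_maps_to (s := J') (t := J'.image fun D => D i) (g := fun D => D i)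
            (fun D hD => Finset.mem_image_of_mem _ hD)]
          refine Finset.sum_congr rfl fun j _ => ?_
          rw [Finset.sum_mul]
          refine Finset.sum_congr rfl fun D hD => ?_
          obtain ⟨_, rfl⟩ := Finset.mem_filter.1 hD
          rw [h4, tw_add, mul_assoc]
        rw [h6]
        exact h3
  intro D hD
  by_cases hg : ∀ i, 0 < d i
  · have h1 := key Finset.univ D (fun _ => (0, 0, 0)) (fun i => by simpa using hg i)
    have h2 : J.filter (fun D' => ∀ i ∈ Finset.univ, D' i = D i) = {D} := by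
      ext D'
      simp only [Finset.mem_filter, Finset.mem_univ, true_implies, Finset.mem_singleton]
      constructor
      · rintro ⟨_, h3⟩
        exact funext h3
      · rintro rfl
        exact ⟨hD, fun _ => rfl⟩
    rw [h2, Finset.sum_singleton] at h1
    simpa [tw_zero] using h1
  · push Not at hg
    obtain ⟨i, hi⟩ := hg
    have := hJ D hD i
    omega

/-- polynomial growth of a datum -/
def PBD {N : ℕ} (c : GSpData N) : Prop :=
  PB (fun p => (c p).1) ∧ PB (fun p => ((c p).1)⁻¹) ∧ ∀ i, PB (fun p => (c p).2 i) ∧ PB (fun p => ((c p).2 i)⁻¹)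

theorem PBD.val {N : ℕ} {c : GSpData N} (h : PBD c) (l : ℤ × (Fin N → ℤ)) :
    PB (fun p => (c p).1 ^ l.1 * ∏ i, (c p).2 i ^ l.2 i) :=
  (h.1.zpow h.2.1 l.1).mul (PB.prod _ fun i _ => ((h.2.2 i).1.zpow (h.2.2 i).2 (l.2 i)))

theorem PBD.continues {N : ℕ} {c : GSpData N} (h : PBD c) (M : (ℤ × (Fin N → ℤ)) →₀ ℕ) (S : Finset Nat.Primes) :
    Continues (LW S c M) ↔ XW c M ∈ Good :=
  continues_iff (S := S) (c := M) fun l _ => h.val l

theorem unr_add (p : Nat.Primes) (w z : ℂ) : unr p (w + z) = unr p w * unr p z := yy_add p w z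

theorem unr_sum {ι : Type*} (s : Finset ι) (p : Nat.Primes) (f : ι → ℂ) :
    ∏ i ∈ s, unr p (f i) = unr p (∑ i ∈ s, f i) := by
  classical
  induction s using Finset.induction_on with
  | empty =>
    rw [Finset.prod_empty, Finset.sum_empty]
    exact (yy_zero p).symm
  | insert a s ha ih => rw [Finset.prod_insert ha, Finset.sum_insert ha, unr_add, ih]

theorem unr_inv (p : Nat.Primes) (w : ℂ) : (unr p w)⁻¹ = unr p (-w) := by
  rw [inv_eq_iff_mul_eq_one, ← unr_add, add_neg_cancel]
  exact yy_zero p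

variable {k m N : ℕ} {n : Fin k → ℕ} {A : AutomorphicSystem}

theorem leviInd_inl (e : (Σ j, Fin (n j)) ⊕ Fin m ≃ Fin N) (α : ∀ j, GLData (n j)) (b : GSpData m) (w : Fin k → ℂ)
    (p : Nat.Primes) (x : Σ j, Fin (n j)) : (leviInd e α b w p).2 (e (Sum.inl x)) = α x.1 p x.2 * unr p (w x.1) := by
  simp [leviInd]

theorem leviInd_inr (e : (Σ j, Fin (n j)) ⊕ Fin m ≃ Fin N) (α : ∀ j, GLData (n j)) (b : GSpData m) (w : Fin k → ℂ)
    (p : Nat.Primes) (y : Fin m) : (leviInd e α b w p).2 (e (Sum.inr y)) = (b p).2 y := by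
  simp [leviInd]

theorem PBD_levi (e : (Σ j, Fin (n j)) ⊕ Fin m ≃ Fin N) {α : ∀ j, GLData (n j)} (hα : ∀ j, α j ∈ A.gl (n j))
    {b : GSpData m} (hb : b ∈ A.gsp m) (w : Fin k → ℂ) : PBD (leviInd e α b w) := by
  refine ⟨(growth_gsp0 hb).1, (growth_gsp0 hb).2, fun i => ?_⟩
  obtain ⟨x, rfl⟩ := e.surjective i
  rcases x with x | y
  · simp only [leviInd_inl]
    refine ⟨(growth_gl (hα x.1) x.2).1.mul (PB.unr _), ?_⟩
    have h1 := (growth_gl (hα x.1) x.2).2.mul (PB.unr (-(w x.1)))
    simpa only [mul_inv, unr_inv] using h1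
  · simp only [leviInd_inr]
    exact growth_gsp hb y

theorem val_levi (e : (Σ j, Fin (n j)) ⊕ Fin m ≃ Fin N) (α : ∀ j, GLData (n j)) (b : GSpData m) (w : Fin k → ℂ)
    (p : Nat.Primes) (l : ℤ × (Fin N → ℤ)) :
    (leviInd e α b w p).1 ^ l.1 * ∏ i, (leviInd e α b w p).2 i ^ l.2 i =
      ((leviInd e α b 0 p).1 ^ l.1 * ∏ i, (leviInd e α b 0 p).2 i ^ l.2 i) *
        unr p (∑ j, leviDeg e l j * w j) := by
  have hu : unr p 0 = 1 := yy_zero p
  have h1 : ∀ w : Fin k → ℂ, ∏ i, (leviInd e α b w p).2 i ^ l.2 i =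
      (∏ x : Σ j, Fin (n j), α x.1 p x.2 ^ l.2 (e (Sum.inl x))) *
      (∏ x : Σ j, Fin (n j), unr p (w x.1) ^ l.2 (e (Sum.inl x))) * ∏ y, (b p).2 y ^ l.2 (e (Sum.inr y)) := by
    intro w
    rw [← Equiv.prod_comp e, Fintype.prod_sum_type]
    simp only [leviInd_inl, leviInd_inr, mul_zpow, Finset.prod_mul_distrib]
  have h2 : ∏ x : Σ j, Fin (n j), unr p (w x.1) ^ l.2 (e (Sum.inl x)) = unr p (∑ j, leviDeg e l j * w j) := by
    rw [Fintype.prod_sigma, ← unr_sum]
    refine Finset.prod_congr rfl fun j _ => ?_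
    exact unr_prod Finset.univ p (w j) (fun y => l.2 (e (Sum.inl ⟨j, y⟩)))
  have h3 : ∏ x : Σ j, Fin (n j), unr p ((0 : Fin k → ℂ) x.1) ^ l.2 (e (Sum.inl x)) = 1 := by
    simp [hu]
  rw [h1, h1, h2, h3]
  change (b p).1 ^ l.1 * _ = (b p).1 ^ l.1 * _ * _
  rw [mul_one]
  ac_rfl

/-- the family of a multiset of weights on the induced representations -/
theorem XW_levi (e : (Σ j, Fin (n j)) ⊕ Fin m ≃ Fin N) (α : ∀ j, GLData (n j)) (b : GSpData m)
    (M : (ℤ × (Fin N → ℤ)) →₀ ℕ) (w : Fin k → ℂ) :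
    XW (leviInd e α b w) M = ∑ D ∈ M.support.image (leviDeg e),
      XW (leviInd e α b 0) (M.filter fun l => leviDeg e l = D) * tw (∑ j, D j * w j) := by
  classical
  have h0 : ∀ D : Fin k → ℤ, XW (leviInd e α b 0) (M.filter fun l => leviDeg e l = D) =
      ∑ l ∈ M.support with leviDeg e l = D, (M l) • br (fun p => (leviInd e α b 0 p).1 ^ l.1 *
        ∏ i, (leviInd e α b 0 p).2 i ^ l.2 i) := by
    intro D
    unfold XW XX
    rw [Finsupp.support_filter]
    refine Finset.sum_congr (by ext; simp) fun l hl => ?_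
    rw [Finsupp.filter_apply_pos]
    exact (Finset.mem_filter.1 hl).2
  simp only [h0]
  unfold XW XX
  rw [← Finset.sum_fiberwise_of_maps_to (s := M.support) (t := M.support.image (leviDeg e))
    (g := leviDeg e) (fun l hl => Finset.mem_image_of_mem _ hl)]
  refine Finset.sum_congr rfl fun D _ => ?_
  rw [Finset.sum_mul]
  refine Finset.sum_congr rfl fun l hl => ?_
  obtain ⟨_, rfl⟩ := Finset.mem_filter.1 hl
  rw [smul_mul_assoc, ← br_unr, br_mul]
  congr 2
  funext p
  exact val_levi e α b w p l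

/-- **Rigidity for families with several parameters.** -/
theorem rigidity_levi (e : (Σ j, Fin (n j)) ⊕ Fin m ≃ Fin N) {α : ∀ j, GLData (n j)}
    (hα : ∀ j, α j ∈ A.gl (n j)) {b : GSpData m} (hb : b ∈ A.gsp m)
    (M : (ℤ × (Fin N → ℤ)) →₀ ℕ) (S : Finset Nat.Primes) {d : Fin k → ℕ} {c : Fin k → ℤ}
    (hM : ∀ l ∈ M.support, ∀ j, c j ≤ leviDeg e l j ∧ leviDeg e l j < c j + d j)
    (z : Fin k → ℂ) {a : Fin k → ℝ} (ha : ∀ j, 0 < a j)
    (h : ∀ g : Fin k → ℕ × ℕ × ℕ, (∀ j, (g j).1 + (g j).2.1 + (g j).2.2 < d j) →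
      Continues (LW S (leviInd e α b (fun j => vert (z j) (a j) (g j))) M)) :
    (∀ w : Fin k → ℂ, Continues (LW S (leviInd e α b w) M)) ∧
      ∀ D : Fin k → ℤ, Continues (LW S (leviInd e α b 0) (M.filter fun l => leviDeg e l = D)) := by
  classical
  have hP : ∀ w, PBD (leviInd e α b w) := fun w => PBD_levi e hα hb w
  have h1 : ∀ D ∈ M.support.image (leviDeg e), XW (leviInd e α b 0) (M.filter fun l => leviDeg e l = D) ∈ Good := by
    refine isolate_multi (d := d) (e := c) ?_ ?_ z ha ?_
    · intro D hD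
      obtain ⟨l, hl, rfl⟩ := Finset.mem_image.1 hD
      exact hM l hl
    · intro D _
      exact XX_tame fun l _ => (hP 0).val l
    · intro g hg
      rw [← XW_levi]
      exact ((hP _).continues M S).1 (h g hg)
  refine ⟨fun w => ?_, fun D => ?_⟩
  · rw [(hP w).continues M S, XW_levi]
    exact Good.sum_mem fun D hD => good_tw (h1 D hD) _
  · rw [(hP 0).continues _ S]
    by_cases hD : D ∈ M.support.image (leviDeg e)
    · exact h1 D hD
    · have h2 : (M.filter fun l => leviDeg e l = D) = 0 := by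
        ext l
        rw [Finsupp.filter_apply]
        split_ifs with h3
        · by_contra h4
          exact hD (Finset.mem_image.2 ⟨l, Finsupp.mem_support_iff.2 h4, h3⟩)
        · rfl
      rw [h2]
      unfold XW XX
      simp [Good.zero_mem]

/-- the representations induced from standard Levi subgroups are automorphic -/
theorem exists_levi_mem : ∀ (k : ℕ) (n : Fin k → ℕ) (m : ℕ) (α : ∀ j, GLData (n j)) (b : GSpData m),
    (∀ j, α j ∈ A.gl (n j)) → b ∈ A.gsp m → ∃ (N : ℕ) (e : (Σ j, Fin (n j)) ⊕ Fin m ≃ Fin N),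
      ∀ w : Fin k → ℂ, leviInd e α b w ∈ A.gsp N := by
  intro k
  induction k with
  | zero =>
    intro n m α b _ hb
    refine ⟨m, Equiv.emptySum _ _, fun w => ?_⟩
    have h1 : leviInd (Equiv.emptySum _ _) α b w = b := by
      funext p
      simp [leviInd]
    rw [h1]
    exact hb
  | succ k ih =>
    intro n m α b hα hb
    obtain ⟨N, e, he⟩ := ih (fun j => n j.succ) m (fun j => α j.succ) b (fun j => hα j.succ) hb
    let e₁ : (Σ j : Fin (k + 1), Fin (n j)) ≃ Fin (n 0) ⊕ Σ j : Fin k, Fin (n j.succ) :=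
      { toFun := fun x => Fin.cases (motive := fun j => Fin (n j) → Fin (n 0) ⊕ Σ j : Fin k, Fin (n j.succ))
          (fun y => Sum.inl y) (fun j y => Sum.inr ⟨j, y⟩) x.1 x.2
        invFun := fun x => Sum.elim (fun y => ⟨0, y⟩) (fun y => ⟨y.1.succ, y.2⟩) x
        left_inv := by
          rintro ⟨j, y⟩
          induction j using Fin.cases with
          | zero => rfl
          | succ j => rfl
        right_inv := by
          rintro (y | y)
          · rfl
          · rfl }
    let e₂ : (Σ j : Fin (k + 1), Fin (n j)) ⊕ Fin m ≃ Fin (n 0 + N) :=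
      (((Equiv.sumCongr e₁ (Equiv.refl _)).trans (Equiv.sumAssoc _ _ _)).trans
        (Equiv.sumCongr (Equiv.refl _) e)).trans finSumFinEquiv
    refine ⟨n 0 + N, e₂, fun w => ?_⟩
    have h1 : leviInd e₂ α b w = ind (α 0) (leviInd e (fun j => α j.succ) b (fun j => w j.succ)) (w 0) := by
      funext p
      refine Prod.ext rfl ?_
      funext i
      obtain ⟨x, rfl⟩ := e₂.surjective i
      rcases x with ⟨j, y⟩ | y
      · rw [leviInd_inl]
        refine Fin.cases (motive := fun j => ∀ y : Fin (n j), α j p y * unr p (w j) =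
          (ind (α 0) (leviInd e (fun j => α j.succ) b (fun j => w j.succ)) (w 0) p).2
            (e₂ (Sum.inl ⟨j, y⟩))) ?_ ?_ j y
        · intro y
          have h2 : e₂ (Sum.inl ⟨0, y⟩) = Fin.castAdd N y := rfl
          rw [h2]
          simp [ind]
        · intro j y
          have h2 : e₂ (Sum.inl ⟨j.succ, y⟩) = Fin.natAdd (n 0) (e (Sum.inl ⟨j, y⟩)) := rfl
          rw [h2]
          simp [ind, leviInd]
      · rw [leviInd_inr]
        have h2 : e₂ (Sum.inr y) = Fin.natAdd (n 0) (e (Sum.inr y)) := rfl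
        rw [h2]
        simp [ind, leviInd]
    rw [h1]
    exact ind_mem (hα 0) (he _) (w 0)

end Pool.Agent.K7.H65.EP
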